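import Pool.Agent.N98.SS.Snc
import Pool.Agent.TH188.QS.Down3
import Pool.Agent.Y67.DT.Ind
import Pool.Agent.Y67.DT.Move

/-!
Base rings with uniformizable valuations.
-/

set_option autoImplicit false
set_option linter.unusedVariables false
set_option linter.unusedSectionVars false

open IsLocalRing Pool.Agent.W418.LU2 Pool.Agent.N98.RV Pool.Agent.N98.RW

universe u

namespace Pool.Agent.N98.SS

theorem snc_of_indN {R : Type u} [CommRing R] [IsRegularLocalRing R] {m : ℕ} {x : Fin m → R}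
    (hx : IndN x) (Q : Ideal R) [Q.IsPrime] : IsRegularLocalRing (Localization.AtPrime Q) ∧
    ∀ c : Fin m → Localization.AtPrime Q, (∀ i, x i ∉ Q → c i = 0) →
      ∑ i, c i * algebraMap R (Localization.AtPrime Q) (x i) ∈
        maximalIdeal (Localization.AtPrime Q) ^ 2 →
      ∀ i, c i ∈ maximalIdeal (Localization.AtPrime Q) := by
  classical
  refine ⟨regular_localization Q, fun c hc hs i => ?_⟩
  by_cases hiQ : x i ∈ Q
  swap
  · rw [hc i hiQ]
    exact Ideal.zero_mem _
  let s : Finset (Fin m) := Finset.univ.filter fun j => x j ∈ maximalIdeal R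
  let e : Fin s.card ≃ s := s.equivFin.symm
  let f : Fin s.card → Fin m := fun j => (e j : Fin m)
  have hf : Function.Injective f := Subtype.val_injective.comp e.injective
  have hfm : ∀ j, x (f j) ∈ maximalIdeal R := fun j => (Finset.mem_filter.1 (e j).2).2
  have hQm : Q ≤ maximalIdeal R := IsLocalRing.le_maximalIdeal (Ideal.IsPrime.ne_top inferInstance)
  have hfs : ∀ j, x j ∈ Q → ∃ k, f k = j := by
    intro j hj
    exact ⟨e.symm ⟨j, Finset.mem_filter.2 ⟨Finset.mem_univ _, hQm hj⟩⟩, by simp [f]⟩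
  have h1 := (snc_of_ind (hx.ind f hf hfm) Q).2 (fun k => c (f k))
    (fun k hk => hc _ hk) (by
      have h2 : ∑ k, c (f k) * algebraMap R (Localization.AtPrime Q) (x (f k)) =
          ∑ i, c i * algebraMap R (Localization.AtPrime Q) (x i) := by
        refine Fintype.sum_of_injective f hf _ _ ?_ (fun _ => rfl)
        intro j hj
        rw [hc j fun h => hj (hfs j h), zero_mul]
      rw [h2]
      exact hs)
  obtain ⟨k, rfl⟩ := hfs i hiQ
  exact h1 k

lemma pmon_equiv {F : Type u} [Field F] {P : Subring F} {ι κ : Type} [Fintype ι] [Fintype κ]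
    {x : ι → F} (e : κ ≃ ι) {z : F} (hz : PMon P x z) : PMon P (fun k => x (e k)) z := by
  obtain ⟨u, u0, u1, u2, δ, rfl⟩ := hz
  refine ⟨u, u0, u1, u2, fun k => δ (e k), ?_⟩
  congr 1
  unfold mo
  exact (Equiv.prod_comp e fun i => x i ^ δ i).symm

theorem hasF_of_gp {E : Type u} [Field E] (V : ValuationSubring E) (R : Subring E)
    (hRV : R ≤ V.toSubring) (hfr : ∀ z : E, ∃ a ∈ R, ∃ b ∈ R, b ≠ 0 ∧ z = a * b⁻¹)
    (h : Pool.Agent.TH188.QS.GP V R) : HasF (AdlS V R) ({V} : Set (ValuationSubring E)) := by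
  classical
  refine hasF_adl fun H _ f hf => ?_
  obtain ⟨ι, _, x, P, g, hreg, ⟨hgR, hg0, T, hTf, hT, hP⟩, hgm, hG, -⟩ := h (Set.range f) ∅
    (Set.finite_range f) Set.finite_empty (by
      rintro _ ⟨t, rfl⟩
      exact ⟨hf t, hfr _⟩) (fun _ h => h.elim)
  have hPr : IsRegularLocalRing P := hreg.reg
  have hRP : R ≤ P := by
    rw [hP]
    exact fun a ha => le_lo _ _ (Subring.subset_closure (Or.inl ha))
  have hCV : Subring.closure ((R : Set E) ∪ T) ≤ V.toSubring :=
    Pool.Agent.TH188.QS.cl_le hRV fun t ht => (hT t ht).1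
  let e : Fin (Fintype.card ι) ≃ ι := (Fintype.equivFin ι).symm
  have hreg' : RegP V.toSubring P (fun k => x (e k)) :=
    Pool.Agent.Y67.DT.regP_comp hreg e e.injective
  have hpm : ∀ z, PMon P x z → PMon P (fun k => x (e k)) z := fun z hz => pmon_equiv e hz
  have hinv : ∀ a ∈ P, V.valuation a = 1 → a⁻¹ ∈ P := by
    intro a ha h1
    refine hreg.inv a ha ?_ ?_
    · rintro rfl
      rw [map_zero] at h1
      exact zero_ne_one h1
    · change a⁻¹ ∈ V
      rw [← V.valuation_le_one_iff, map_inv₀, h1, inv_one]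
  have hC : RegC P (fun k => x (e k)) := by
    have h1 := snc_of_indN (x := fun k => (⟨x (e k), hreg.mem _⟩ : P)) hreg'.ind
    exact regC_of_snc P.subtype Subtype.val_injective (fun y => ⟨fun hy => ⟨⟨y, hy⟩, rfl⟩, by
      rintro ⟨a, rfl⟩
      exact a.2⟩) (x := fun k => (⟨x (e k), hreg.mem _⟩ : P)) (fun k => hreg.ne _) h1
  refine ⟨P, Fin (Fintype.card ι), inferInstance, fun k => x (e k), inferInstance, hRP,
    fun a ha => hreg.PA ha, hinv, ⟨hTf.toFinset, ?_, ?_⟩, hC, ?_, ?_, ?_⟩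
  · intro t ht
    rw [hP]
    exact le_lo _ _ (Subring.subset_closure (Or.inr (hTf.mem_toFinset.1 ht)))
  · rw [hTf.coe_toFinset]
    exact hP.le
  · intro c hc
    rw [hP] at hc
    obtain ⟨a, ha, b, hb, hb0, hbV, rfl⟩ := hc
    have hbP : b ∈ P := by
      rw [hP]
      exact le_lo _ _ hb
    have key := Pool.Agent.Y67.DT.closure_pow hgR (U := T)
      fun t ht => ⟨1, by rw [pow_one, mul_comm]; exact (hT t ht).2⟩
    obtain ⟨n1, hn1⟩ := key a ha
    obtain ⟨n2, hn2⟩ := key b hb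
    refine ⟨g ^ n1 * (g ^ n2 * b), R.mul_mem (R.pow_mem hgR _) hn2, ?_, ?_⟩
    · have hg' := hpm g hgm
      have hne : ∀ k, x (e k) ≠ 0 := fun k => hreg.ne _
      exact (RW.PMon.pow hne hg' _).mul hne ((RW.PMon.pow hne hg' _).mul hne
        (PMon.unit hb0 hbP (hreg.inv b hbP hb0 hbV)))
    · have e1 : a * b⁻¹ * (g ^ n1 * (g ^ n2 * b)) = (g ^ n1 * a) * g ^ n2 := by
        field_simp
      rw [e1]
      exact R.mul_mem hn1 (R.pow_mem hgR _)
  · intro z
    obtain ⟨a, ha, b, hb, hb0, e1⟩ := hfr z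
    exact ⟨a, hRP ha, b, hRP hb, hb0, e1⟩
  · intro t
    exact hpm _ (hG _ ⟨t, rfl⟩)

end Pool.Agent.N98.SS
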