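import Pool.Agent.N98.SS.Ver
import Pool.Agent.N98.SS.Base
import Pool.Agent.H176.DT.B11

/-!
Stages in bounded degree.
-/

set_option autoImplicit false
set_option linter.unusedVariables false
set_option linter.unusedSectionVars false

universe u

namespace Pool.Agent.N98.SS

open IsLocalRing Pool.Agent.W418.LU2 Pool.Agent.N98.RV Pool.Agent.N98 Pool.Agent.N98.RW
  Pool.Agent.H176.DT

variable {E K : Type u} [Field E] [Field K] [Algebra E K]

/-- The elements with monomial denominators. -/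
lemma den_closure {A L : Subring K} {ι : Type} [Fintype ι] {X : ι → K} (hX : ∀ i, X i ≠ 0)
    {T : Set K} (hT : ∀ t ∈ T, ∃ β ∈ A, PMon L X β ∧ β * t ∈ A) :
    ∀ z ∈ Subring.closure ((A : Set K) ∪ T), ∃ β ∈ A, PMon L X β ∧ β * z ∈ A := by
  intro z hz
  induction hz using Subring.closure_induction with
  | mem z hz =>
    rcases hz with hz | hz
    · exact ⟨1, A.one_mem, PMon.one, by rw [one_mul]; exact hz⟩
    · exact hT z hz
  | zero => exact ⟨1, A.one_mem, PMon.one, by rw [mul_zero]; exact A.zero_mem⟩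
  | one => exact ⟨1, A.one_mem, PMon.one, by rw [mul_one]; exact A.one_mem⟩
  | add x y _ _ hx hy =>
    obtain ⟨β, hβ, hβm, hβx⟩ := hx
    obtain ⟨β', hβ', hβm', hβy⟩ := hy
    refine ⟨β * β', A.mul_mem hβ hβ', hβm.mul hX hβm', ?_⟩
    have e1 : β * β' * (x + y) = β * x * β' + β' * y * β := by ring
    rw [e1]
    exact A.add_mem (A.mul_mem hβx hβ') (A.mul_mem hβy hβ)
  | neg x _ hx =>
    obtain ⟨β, hβ, hβm, hβx⟩ := hx
    exact ⟨β, hβ, hβm, by rw [mul_neg]; exact A.neg_mem hβx⟩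
  | mul x y _ _ hx hy =>
    obtain ⟨β, hβ, hβm, hβx⟩ := hx
    obtain ⟨β', hβ', hβm', hβy⟩ := hy
    refine ⟨β * β', A.mul_mem hβ hβ', hβm.mul hX hβm', ?_⟩
    have e1 : β * β' * (x * y) = β * x * (β' * y) := by ring
    rw [e1]
    exact A.mul_mem hβx hβy

/-- **Stages in bounded degree.** -/
theorem exists_stage [Infinite E] {N r δ : ℕ} (x : Fin N → K)
    (htop : IntermediateField.adjoin E (Set.range x) = ⊤) (htr : Algebra.trdeg E K = r) (C0 : ℕ)
    (hδ : ∀ t : ℕ, r.factorial * Module.finrank E (img E x t) ≤ δ * (t + C0) ^ r)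
    (V : ValuationSubring K)
    (hp : ∀ p : ℕ, p.Prime → p ≤ δ ^ 2 ^ r → V.valuation (p : K) = 1)
    (R : Subring E) (hfr : ∀ z : E, ∃ a ∈ R, ∃ b ∈ R, b ≠ 0 ∧ z = a * b⁻¹)
    (hR : HasF (AdlS (V.comap (algebraMap E K)) R)
      ({V.comap (algebraMap E K)} : Set (ValuationSubring E)))
    (O : Subring K) (G : Set K) (hG : G.Finite) (hGm : ∀ z ∈ G, LProd (E := E) x z)
    (A : Subring K) (hAV : A ≤ V.toSubring) (hA : A = Subring.closure ((O : Set K) ∪ G))
    (U : Set K) (hU : U.Finite)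
    (hRU : R.map (algebraMap E K) = Subring.closure ((O : Set K) ∪ U))
    (hUA : ∀ u ∈ U, ∃ b ∈ A, b ≠ 0 ∧ LProd (E := E) x b ∧ b * u ∈ A)
    (hx : ∀ j, ∃ b ∈ A, b ≠ 0 ∧ LProd (E := E) x b ∧ b * x j ∈ A)
    (M : Set K) (hM : M.Finite) (hMm : ∀ g ∈ M, g ≠ 0 ∧ g ∈ V ∧ LProd (E := E) x g) :
    ∃ (T : Set K) (n : ℕ) (X : Fin n → K), St V A T X ∧ ∀ g ∈ M, PMon (PP V A T) X g := by
  classical
  -- the ring A'
  set A' : Subring K := Subring.closure ((A : Set K) ∪ R.map (algebraMap E K)) with hA'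
  have hAA' : A ≤ A' := fun a ha => Subring.subset_closure (Or.inl ha)
  have hRA' : ∀ c ∈ R, algebraMap E K c ∈ A' := fun c hc =>
    Subring.subset_closure (Or.inr ⟨c, hc, rfl⟩)
  -- the family
  choose bx hbxA hbx0 hbxm hbxx using hx
  choose! bu hbuA hbu0 hbum hbuu using hUA
  let T0 : Set K := {1} ∪ Set.range bx ∪ G ∪ bu '' U ∪ M
  have hT0 : T0.Finite := ((((Set.finite_singleton _).union (Set.finite_range bx)).union hG).union
    (hU.image _)).union hM
  have hT0m : ∀ z ∈ T0, LProd (E := E) x z := by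
    rintro z ((((hz | ⟨j, rfl⟩) | hz) | ⟨a, ha, rfl⟩) | hz)
    · rw [Set.mem_singleton_iff.1 hz]
      exact ⟨0, Fin.elim0, Fin.elim0, Fin.elim0, by simp⟩
    · exact hbxm j
    · exact hGm z hz
    · exact hbum a ha
    · exact (hMm z hz).2.2
  let T1 : Finset K := hT0.toFinset.filter fun z => z ≠ 0
  have hT1 : ∀ z, z ∈ T1 ↔ z ∈ T0 ∧ z ≠ 0 := by
    intro z
    rw [Finset.mem_filter, Set.Finite.mem_toFinset]
  let eT := T1.equivFin
  let S : Fin T1.card → K := fun j => (eT.symm j : K)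
  have hSs : ∀ z ∈ T0, z ≠ 0 → ∃ j, S j = z := by
    intro z hz hz0
    refine ⟨eT ⟨z, (hT1 z).2 ⟨hz, hz0⟩⟩, ?_⟩
    change ((eT.symm (eT ⟨z, _⟩) : T1) : K) = z
    rw [Equiv.symm_apply_apply]
  have hSm : ∀ j, LProd (E := E) x (S j) := fun j => hT0m _ ((hT1 _).1 (eT.symm j).2).1
  have hS0 : ∀ j, S j ≠ 0 := fun j => ((hT1 _).1 (eT.symm j).2).2
  choose q' a b e hs using hSm
  have hjx : ∀ l, ∃ j, S j = bx l := fun l =>
    hSs _ (Or.inl (Or.inl (Or.inl (Or.inr ⟨l, rfl⟩)))) (hbx0 l)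
  choose jx hjx using hjx
  obtain ⟨L, B0, ι, hι, X, Z, hB0V, hL, hreg, hint, hRL, hcmp, hpm, hZL, hZ, hB0Z⟩ :=
    lgu_aux x htop htr C0 hδ V hp R hfr hR S q' a b e hs hS0 A' hRA' jx
      (fun l => by rw [hjx l]; exact ⟨hAA' (hbxA l), hAA' (hbxx l)⟩)
  obtain ⟨j1, hj1⟩ := hSs 1 (Or.inl (Or.inl (Or.inl (Or.inl rfl)))) one_ne_zero
  have hVL : ∀ z ∈ T0, z ∈ V → z ∈ L := by
    intro z hz hzV
    by_cases hz0 : z = 0
    · rw [hz0]
      exact L.zero_mem
    · obtain ⟨j, hj⟩ := hSs z hz hz0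
      have h1 := hcmp j j1 (by rw [hj, hj1, div_one]; exact hzV)
      rwa [hj, hj1, div_one] at h1
  have hRmL : R.map (algebraMap E K) ≤ L := by
    rintro _ ⟨c, hc, rfl⟩
    exact hRL c hc
  have hOL : O ≤ L := by
    refine le_trans ?_ hRmL
    rw [hRU]
    exact fun z hz => Subring.subset_closure (Or.inl hz)
  have hAL : A ≤ L := by
    have h1 : Subring.closure ((O : Set K) ∪ G) ≤ L := by
      rw [Subring.closure_le]
      rintro z (hz | hz)
      · exact hOL hz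
      · exact hVL z (Or.inl (Or.inl (Or.inr hz))) (hAV (by
          rw [hA]
          exact Subring.subset_closure (Or.inr hz)))
    rwa [← hA] at h1
  have hA'L : A' ≤ L := by
    rw [hA', Subring.closure_le]
    rintro z (hz | hz)
    · exact hAL hz
    · exact hRmL hz
  have hmon : ∀ z ∈ T0, z ≠ 0 → z ∈ L → PMon L X z := by
    intro z hz hz0 hzL
    obtain ⟨j, hj⟩ := hSs z hz hz0
    rw [← hj] at hzL ⊢
    exact hpm j hzL
  have hX0 : ∀ i, X i ≠ 0 := hreg.ne
  have hUL : U ⊆ L := by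
    intro u hu
    refine hRmL ?_
    rw [hRU]
    exact Subring.subset_closure (Or.inr hu)
  -- denominators in `A`
  have hdU : ∀ u ∈ U, ∃ β ∈ A, PMon L X β ∧ β * u ∈ A := fun u hu =>
    ⟨bu u, hbuA u hu, hmon _ (Or.inl (Or.inr ⟨u, hu, rfl⟩)) (hbu0 u hu) (hAL (hbuA u hu)),
      hbuu u hu⟩
  have hA'U : A' = Subring.closure ((A : Set K) ∪ U) := by
    apply le_antisymm
    · rw [hA', Subring.closure_le]
      rintro z (hz | hz)
      · exact Subring.subset_closure (Or.inl hz)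
      · rw [hRU] at hz
        have h1 : Subring.closure ((O : Set K) ∪ U) ≤ Subring.closure ((A : Set K) ∪ U) := by
          rw [Subring.closure_le]
          rintro z (hz | hz)
          · refine Subring.subset_closure (Or.inl ?_)
            rw [hA]
            exact Subring.subset_closure (Or.inl hz)
          · exact Subring.subset_closure (Or.inr hz)
        exact h1 hz
    · rw [Subring.closure_le]
      rintro z (hz | hz)
      · exact hAA' hz
      · refine Subring.subset_closure (Or.inr ?_)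
        rw [hRU]
        exact Subring.subset_closure (Or.inr hz)
  have hdA' : ∀ z ∈ A', ∃ β ∈ A, PMon L X β ∧ β * z ∈ A := by
    intro z hz
    rw [hA'U] at hz
    exact den_closure hX0 hdU z hz
  have hdZ : ∀ z ∈ (Z : Set K), ∃ β ∈ A, PMon L X β ∧ β * z ∈ A := by
    intro z hz
    obtain ⟨β, hβ, hβm, hzβ⟩ := hZ hA'L z hz
    obtain ⟨γ, hγ, hγm, hγβ⟩ := hdA' β hβ
    obtain ⟨γ', hγ', hγm', hγz⟩ := hdA' _ hzβ
    refine ⟨γ * β * γ', A.mul_mem hγβ hγ', (hγm.mul hX0 hβm).mul hX0 hγm', ?_⟩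
    have e1 : γ * β * γ' * z = γ' * (z * β) * γ := by ring
    rw [e1]
    exact A.mul_mem hγz hγ
  -- the generators
  set T : Set K := U ∪ (Z : Set K) with hTdef
  have hTf : T.Finite := hU.union Z.finite_toSet
  have hdT : ∀ z ∈ T, ∃ β ∈ A, PMon L X β ∧ β * z ∈ A := by
    rintro z (hz | hz)
    · exact hdU z hz
    · exact hdZ z hz
  have hLV : L ≤ V.toSubring := hreg.PA
  have hCL : Subring.closure ((A : Set K) ∪ T) ≤ L := by
    rw [Subring.closure_le]
    rintro z (hz | hz | hz)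
    · exact hAL hz
    · exact hUL hz
    · exact hZL z hz
  have hCC : Subring.closure ((A' : Set K) ∪ Z) ≤ Subring.closure ((A : Set K) ∪ T) := by
    rw [Subring.closure_le]
    rintro z (hz | hz)
    · rw [hA'U] at hz
      have h1 : Subring.closure ((A : Set K) ∪ U) ≤ Subring.closure ((A : Set K) ∪ T) :=
        Subring.closure_mono (Set.union_subset_union_right _ Set.subset_union_left)
      exact h1 hz
    · exact Subring.subset_closure (Or.inr (Or.inr hz))
  have hPP : PP V A T = L := by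
    apply le_antisymm
    · rintro z ⟨a, ha, b, hb, hb0, hbV, rfl⟩
      have h1 := inv_mem_lo hB0V (by rw [← hL]; exact hCL hb) hb0 hbV
      rw [← hL] at h1
      exact L.mul_mem (hCL ha) h1
    · have h1 : lo V.toSubring B0 ≤ PP V A T := by
        have hCV : Subring.closure ((A : Set K) ∪ T) ≤ V.toSubring := hCL.trans hLV
        have h2 : B0 ≤ PP V A T := fun z hz => lo_mono hCC (hB0Z hz)
        rintro z ⟨a, ha, b, hb, hb0, hbV, rfl⟩
        exact Subring.mul_mem _ (h2 ha) (inv_mem_lo hCV (h2 hb) hb0 hbV)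
      rwa [← hL] at h1
  have hdL : ∀ z ∈ L, ∃ β ∈ A, PMon L X β ∧ β * z ∈ A := by
    intro z hz
    rw [← hPP] at hz
    obtain ⟨a, ha, b, hb, hb0, hbV, rfl⟩ := hz
    obtain ⟨β, hβ, hβm, hβa⟩ := den_closure hX0 hdT a ha
    obtain ⟨γ, hγ, hγm, hγb⟩ := den_closure hX0 hdT b hb
    have hbL := hCL hb
    have hbL' : b⁻¹ ∈ L := by
      have h1 := inv_mem_lo hB0V (by rw [← hL]; exact hbL) hb0 hbV
      rwa [← hL] at h1
    refine ⟨β * (γ * b), A.mul_mem hβ hγb, hβm.mul hX0 (hγm.mul hX0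
      (PMon.unit hb0 hbL hbL')), ?_⟩
    have e1 : β * (γ * b) * (a * b⁻¹) = β * a * γ := by field_simp
    rw [e1]
    exact A.mul_mem hβa hγ
  obtain ⟨β, hβ, hβm, hβT⟩ := exists_den (A := A) (P := L) hX0
    (hTf.union (Set.finite_range X)) (by
      rintro z (hz | ⟨i, rfl⟩)
      · exact hdT z hz
      · exact hdL _ (hreg.mem i))
  let e' : Fin (Fintype.card ι) ≃ ι := (Fintype.equivFin ι).symm
  refine ⟨T, Fintype.card ι, fun k => X (e' k), ⟨hTf, ?_, β, hβ, ?_, fun t ht => hβT t (Or.inl ht),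
    fun i => hβT _ (Or.inr ⟨_, rfl⟩)⟩, ?_⟩
  · rw [hPP]
    exact Pool.Agent.Y67.DT.regP_comp hreg e' e'.injective
  · rw [hPP]
    exact pmon_equiv e' hβm
  · intro g hg
    rw [hPP]
    obtain ⟨hg0, hgV, hgm⟩ := hMm g hg
    exact pmon_equiv e' (hmon g (Or.inr hg) hg0 (hVL g (Or.inr hg) hgV))

end Pool.Agent.N98.SS
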