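import Pool.Agent.N98.SS.Gener
import Pool.Agent.R187.CT.Mdl

/-!
Normal crossings are stable under generization.
-/

set_option autoImplicit false
set_option linter.unusedVariables false
set_option linter.unusedSectionVars false

open IsLocalRing Pool.Agent.W418.LU2

universe u

namespace Pool.Agent.N98.SS

variable {K : Type u} [Field K]

/-- Localizations of regular local rings at the centres of generizations. -/
theorem coarse_core (V V₁ : ValuationSubring K) (hVV : V ≤ V₁) (B : Subring K)
    (hBV : B ≤ V.toSubring) (hreg : IsRegularLocalRing (lo V.toSubring B)) (n : ℕ)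
    (y : Fin n → lo V.toSubring B)
    (hspan : Ideal.span (Set.range y) = maximalIdeal (lo V.toSubring B))
    (hdim : ringKrullDim (lo V.toSubring B) = n) :
    ∃ (hPP : lo V.toSubring B ≤ lo V₁.toSubring B)
      (_ : IsRegularLocalRing (lo V₁.toSubring B)),
      Ind (fun i : {i : Fin n // V₁.valuation (y i : K) < 1} =>
        (⟨(y i.1 : K), hPP (y i.1).2⟩ : lo V₁.toSubring B)) ∧
      ∀ a : lo V.toSubring B, ¬ V₁.valuation (a : K) < 1 →
        IsUnit (⟨(a : K), hPP a.2⟩ : lo V₁.toSubring B) := by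
  classical
  let P := lo V.toSubring B
  let P₁ := lo V₁.toSubring B
  have hPP : P ≤ P₁ := by
    rintro _ ⟨a, ha, b, hb, hb0, hbV, rfl⟩
    exact ⟨a, ha, b, hb, hb0, hVV hbV, rfl⟩
  have hBV₁ : B ≤ V₁.toSubring := fun b hb => hVV (hBV hb)
  have hP₁V : ∀ a ∈ P₁, a ∈ V₁ := by
    rintro _ ⟨a, ha, b, hb, hb0, hbV, rfl⟩
    exact V₁.mul_mem _ _ (hBV₁ ha) hbV
  let θ : P →+* V₁ := Subring.inclusion (fun a ha => hP₁V a (hPP ha) : P ≤ V₁.toSubring)
  let Q : Ideal P := (maximalIdeal V₁).comap θ
  have hQ : ∀ a : P, a ∈ Q ↔ V₁.valuation (a : K) < 1 := by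
    intro a
    change θ a ∈ maximalIdeal V₁ ↔ _
    rw [V₁.valuation_lt_one_iff]
    rfl
  have hQp : Q.IsPrime := Ideal.IsPrime.comap θ
  let _ : Algebra P P₁ := (Subring.inclusion hPP).toAlgebra
  have halg : ∀ a : P, ((algebraMap P P₁ a : P₁) : K) = a := fun a => rfl
  have hloc : IsLocalization.AtPrime P₁ Q := by
    refine ⟨?_, ?_, ?_⟩
    · rintro ⟨a, ha⟩
      have h1 : ¬ V₁.valuation (a : K) < 1 := fun h1 => ha ((hQ a).2 h1)
      have h2 : V₁.valuation (a : K) = 1 := by
        refine le_antisymm ((V₁.valuation_le_one_iff _).2 (hP₁V _ (hPP a.2))) (not_lt.1 h1)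
      have ha0 : (a : K) ≠ 0 := by
        intro h0
        rw [h0, map_zero] at h2
        exact zero_ne_one h2
      have h3 : (a : K)⁻¹ ∈ V₁ := by
        rw [← V₁.valuation_le_one_iff, map_inv₀, h2, inv_one]
      obtain ⟨b, hb, c, hc, hc0, hcV, hbc⟩ := a.2
      have h4 : (a : K)⁻¹ ∈ P₁ := by
        refine ⟨c, hc, b, hb, ?_, ?_, ?_⟩
        · rintro rfl
          rw [zero_mul] at hbc
          exact ha0 hbc
        · have h5 : b⁻¹ = (a : K)⁻¹ * c⁻¹ := by
            rw [hbc, mul_inv, inv_inv, mul_assoc, mul_inv_cancel₀ hc0, mul_one]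
          rw [h5]
          exact V₁.mul_mem _ _ h3 (hVV hcV)
        · rw [hbc, mul_inv, inv_inv, mul_comm]
      refine isUnit_iff_exists_inv.2 ⟨⟨_, h4⟩, Subtype.ext ?_⟩
      change (a : K) * (a : K)⁻¹ = 1
      exact mul_inv_cancel₀ ha0
    · rintro ⟨z, a, ha, b, hb, hb0, hbV, rfl⟩
      have hbP : b ∈ P := ⟨b, hb, 1, B.one_mem, one_ne_zero, by
        rw [inv_one]; exact V.one_mem, by rw [inv_one, mul_one]⟩
      have haP : a ∈ P := ⟨a, ha, 1, B.one_mem, one_ne_zero, by
        rw [inv_one]; exact V.one_mem, by rw [inv_one, mul_one]⟩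
      refine ⟨(⟨a, haP⟩, ⟨⟨b, hbP⟩, ?_⟩), Subtype.ext ?_⟩
      · intro h1
        have h2 := (hQ _).1 h1
        have h3 := (V₁.valuation_le_one_iff _).2 hbV
        rw [map_inv₀] at h3
        have h4 : V₁.valuation b ≠ 0 := (map_ne_zero _).2 hb0
        rw [inv_le_one₀ (zero_lt_iff.2 h4)] at h3
        exact absurd h2 (not_lt.2 h3)
      · change a * b⁻¹ * b = a
        rw [mul_assoc, inv_mul_cancel₀ hb0, mul_one]
    · intro a b hab
      refine ⟨1, ?_⟩
      have h1 : a = b := Subtype.ext (congrArg (fun t : P₁ => (t : K)) hab)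
      rw [h1]
  let e : Localization.AtPrime Q ≃+* P₁ :=
    (IsLocalization.algEquiv Q.primeCompl (Localization.AtPrime Q) P₁).toRingEquiv
  have he : ∀ a : P, e (algebraMap P (Localization.AtPrime Q) a) = algebraMap P P₁ a := fun a =>
    (IsLocalization.algEquiv Q.primeCompl (Localization.AtPrime Q) P₁).commutes a
  have hreg₁ : IsRegularLocalRing (Localization.AtPrime Q) := regular_localization Q
  have hreg₂ : IsRegularLocalRing P₁ := IsRegularLocalRing.of_ringEquiv e
  have hind : Ind y := ind_of_span hspan (by rw [hdim, Fintype.card_fin])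
  obtain ⟨-, hsnc⟩ := snc_of_ind hind Q
  let ι : Type := {i : Fin n // V₁.valuation (y i : K) < 1}
  let z : ι → P₁ := fun i => algebraMap P P₁ (y i.1)
  have hem : ∀ a : Localization.AtPrime Q, a ∈ maximalIdeal (Localization.AtPrime Q) ↔
      e a ∈ maximalIdeal P₁ := by
    intro a
    rw [mem_maximalIdeal, mem_maximalIdeal, mem_nonunits_iff, mem_nonunits_iff, not_iff_not]
    exact ⟨fun h => h.map e, fun h => by
      have h1 := h.map e.symm
      rwa [e.symm_apply_apply] at h1⟩
  have hmap : (maximalIdeal P₁).map e.symm.toRingHom ≤ maximalIdeal (Localization.AtPrime Q) := by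
    rw [Ideal.map_le_iff_le_comap]
    intro b hb
    change e.symm b ∈ maximalIdeal (Localization.AtPrime Q)
    rw [hem, e.apply_symm_apply]
    exact hb
  have hz : Ind z := by
    constructor
    · intro i
      change algebraMap P P₁ (y i.1) ∈ _
      rw [← he, ← hem]
      exact (IsLocalization.AtPrime.to_map_mem_maximal_iff (Localization.AtPrime Q) Q _).2
        ((hQ _).2 i.2)
    · intro c hc i
      have h1 : ∑ j, (if h : V₁.valuation (y j : K) < 1 then e.symm (c ⟨j, h⟩) else 0) *
          algebraMap P (Localization.AtPrime Q) (y j) = e.symm (∑ j, c j * z j) := by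
        rw [map_sum]
        symm
        refine Fintype.sum_of_injective (fun j : ι => j.1) Subtype.val_injective _ _ ?_ ?_
        · intro j hj
          rw [dif_neg, zero_mul]
          intro h
          exact hj ⟨⟨j, h⟩, rfl⟩
        · intro j
          rw [dif_pos j.2, map_mul]
          congr 1
          rw [e.symm_apply_eq, he]
      have h2 := hsnc (fun j => if h : V₁.valuation (y j : K) < 1 then e.symm (c ⟨j, h⟩) else 0)
        (fun j hj => dif_neg fun h => hj ((hQ _).2 h)) (by
          rw [h1]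
          have h3 := Ideal.mem_map_of_mem e.symm.toRingHom hc
          rw [Ideal.map_pow] at h3
          exact Ideal.pow_right_mono hmap 2 h3) i.1
      simp only [dif_pos i.2] at h2
      rw [hem, e.apply_symm_apply] at h2
      exact h2
  refine ⟨hPP, hreg₂, hz, fun a ha => ?_⟩
  exact IsLocalization.map_units P₁ (⟨a, fun h1 => ha ((hQ _).1 h1)⟩ : Q.primeCompl)

/-- Normal crossings are stable under generization. -/
theorem nc_coarse (V V₁ : ValuationSubring K) (hVV : V ≤ V₁) (B : Subring K)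
    (hBV : B ≤ V.toSubring) (p : K) (h : Pool.Agent.R187.CT.NC (lo V.toSubring B) p) :
    Pool.Agent.R187.CT.NC (lo V₁.toSubring B) p := by
  classical
  obtain ⟨hreg, n, y, e, c, hspan, hdim, hp⟩ := h
  obtain ⟨hPP, hreg₁, hind, hunit⟩ := coarse_core V V₁ hVV B hBV hreg n y hspan hdim
  let P := lo V.toSubring B
  let P₁ := lo V₁.toSubring B
  let φ : P →+* P₁ := Subring.inclusion hPP
  have hφ : ∀ a : P, ((φ a : P₁) : K) = a := fun a => rfl
  obtain ⟨m, w, hs, hd⟩ := hind.extend
  let ι : Type := {i : Fin n // V₁.valuation (y i : K) < 1}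
  let z : ι → P₁ := fun i => ⟨(y i.1 : K), hPP (y i.1).2⟩
  let ee := Fintype.equivFin (ι ⊕ Fin m)
  let e' : ι ⊕ Fin m → ℕ := Sum.elim (fun i => e i.1) (fun _ => 0)
  let u : P := (c : P) * ∏ i ∈ Finset.univ.filter (fun i => ¬ V₁.valuation (y i : K) < 1), y i ^ e i
  have hu : IsUnit (φ u) := by
    simp only [u]
    rw [map_mul, map_prod]
    refine IsUnit.mul (c.isUnit.map φ) ?_
    refine Finset.prod_induction _ IsUnit (fun a b => IsUnit.mul) isUnit_one fun i hi => ?_
    rw [map_pow]
    exact (hunit (y i) (Finset.mem_filter.1 hi).2).pow _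
  obtain ⟨c', hc'⟩ := hu
  refine ⟨hreg₁, Fintype.card (ι ⊕ Fin m), fun i => Sum.elim z w (ee.symm i),
    fun i => e' (ee.symm i), c', ?_, ?_, ?_⟩
  · rw [← hs]
    congr 1
    ext v
    constructor
    · rintro ⟨i, rfl⟩
      exact ⟨_, rfl⟩
    · rintro ⟨i, rfl⟩
      refine ⟨ee i, ?_⟩
      change Sum.elim z w (ee.symm (ee i)) = _
      rw [Equiv.symm_apply_apply]
  · rw [hd, Fintype.card_sum, Fintype.card_fin]
  · rw [ee.symm.prod_comp (fun i => ((Sum.elim z w i : P₁) : K) ^ e' i), Fintype.prod_sum_type,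
      hc', hφ, hp]
    have h1 : ∏ i : Fin m, ((Sum.elim z w (Sum.inr i) : P₁) : K) ^ e' (Sum.inr i) = 1 :=
      Finset.prod_eq_one fun i _ => pow_zero _
    rw [h1, mul_one]
    simp only [u]
    rw [Subring.coe_mul, SubmonoidClass.coe_finsetProd, mul_assoc]
    congr 1
    have h2 : ∏ i : ι, ((Sum.elim z w (Sum.inl i) : P₁) : K) ^ e' (Sum.inl i) =
        ∏ i ∈ Finset.univ.filter (fun i => V₁.valuation (y i : K) < 1), (y i : K) ^ e i := by
      rw [Finset.prod_subtype (Finset.univ.filter (fun i => V₁.valuation (y i : K) < 1))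
        (p := fun i => V₁.valuation (y i : K) < 1) (fun i => by simp) (fun i => (y i : K) ^ e i)]
      rfl
    rw [h2, mul_comm]
    exact (Finset.prod_filter_mul_prod_filter_not Finset.univ
      (fun i => V₁.valuation (y i : K) < 1) (fun i => (y i : K) ^ e i)).symm

end Pool.Agent.N98.SS
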