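import Pool.Agent.N98.SS.Sort
import Pool.Agent.H176.DT.B16

/-!
Monomials with a given product in a lattice with an order of arbitrary rank.
-/

set_option autoImplicit false
set_option linter.unusedVariables false

universe u

namespace Pool.Agent.N98.SS

section

variable {A : Type u} [AddCommGroup A] [LinearOrder A] [IsOrderedAddMonoid A] {s : ℕ}

/-- The lattice elements which are infinitely small with respect to `g`. -/
def Inf0 (W : (Fin s → ℤ) →+ A) (g : A) (hg : 0 < g) : Submodule ℤ (Fin s → ℤ) where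
  carrier := {δ | ∀ n : ℤ, n • W δ < g}
  zero_mem' := by
    intro n
    rw [map_zero, smul_zero]
    exact hg
  add_mem' := by
    intro a b ha hb n
    have h1 := ha (2 * n)
    have h2 := hb (2 * n)
    have h3 : (2 : ℤ) • (n • W (a + b)) < (2 : ℤ) • g := by
      have e1 : (2 : ℤ) • (n • W (a + b)) = (2 * n) • W a + (2 * n) • W b := by
        rw [map_add, ← mul_smul, smul_add]
      rw [e1, two_smul]
      exact add_lt_add h1 h2
    by_contra hcon
    push Not at hcon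
    exact absurd (zsmul_le_zsmul_right (by norm_num : (0 : ℤ) ≤ 2) hcon) (not_le.2 h3)
  smul_mem' := by
    intro c a ha n
    have h1 := ha (n * c)
    have e1 : n • W (c • a) = (n * c) • W a := by
      rw [map_zsmul, ← mul_smul]
    rw [e1]
    exact h1

lemma mem_Inf0 (W : (Fin s → ℤ) →+ A) (g : A) (hg : 0 < g) (δ : Fin s → ℤ) :
    δ ∈ Inf0 W g hg ↔ ∀ n : ℤ, n • W δ < g := Iff.rfl

lemma Inf0_tf (W : (Fin s → ℤ) →+ A) (g : A) (hg : 0 < g) (k : ℤ) (δ : Fin s → ℤ) (hk : k ≠ 0)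
    (h : k • δ ∈ Inf0 W g hg) : δ ∈ Inf0 W g hg := by
  intro n
  rcases le_or_gt (n • W δ) 0 with h0 | h0
  · exact h0.trans_lt hg
  · have h1 := h (k * n)
    have e1 : (k * n) • W (k • δ) = (k * k) • (n • W δ) := by
      rw [map_zsmul, ← mul_smul, ← mul_smul]
      congr 1
      ring
    rw [e1] at h1
    have hkk : 1 ≤ k * k := by
      have : 0 < k * k := mul_self_pos.2 hk
      omega
    have h2 : (1 : ℤ) • (n • W δ) ≤ (k * k) • (n • W δ) :=
      zsmul_le_zsmul_left h0.le hkk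
    rw [one_smul] at h2
    exact h2.trans_lt h1

lemma Inf0_ge (W : (Fin s → ℤ) →+ A) (g : A) (hg : 0 < g) {δ : Fin s → ℤ} (h0 : 0 < W δ)
    (h : δ ∉ Inf0 W g hg) : ∃ n : ℕ, 0 < n ∧ g ≤ (n : ℤ) • W δ := by
  rw [mem_Inf0] at h
  push Not at h
  obtain ⟨n, hn⟩ := h
  have hn0 : 0 < n := by
    by_contra hcon
    push Not at hcon
    have h1 : n • W δ ≤ (0 : ℤ) • W δ := zsmul_le_zsmul_left h0.le hcon
    rw [zero_smul] at h1
    exact absurd (hn.trans h1) (not_le.2 hg)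
  refine ⟨n.toNat, by omega, ?_⟩
  rw [Int.toNat_of_nonneg hn0.le]
  exact hn

/-- The floor. -/
lemma exists_floor {g x : A} (hg : 0 < g) {n : ℕ} (h1 : x ≤ (n : ℤ) • g)
    (h2 : -x ≤ (n : ℤ) • g) : ∃ f : ℤ, f • g ≤ x ∧ x < (f + 1) • g := by
  have hlow : ((-n : ℤ)) • g ≤ x := by
    rw [neg_smul]
    exact neg_le_of_neg_le h2
  obtain ⟨f, hf, hmax⟩ := Int.exists_greatest_of_bdd (P := fun z : ℤ => z • g ≤ x)
    ⟨(n : ℤ), fun z hz => by
      by_contra hcon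
      push Not at hcon
      have h3 : ((n : ℤ) + 1) • g ≤ z • g := zsmul_le_zsmul_left hg.le (by omega)
      have h4 : (n : ℤ) • g < ((n : ℤ) + 1) • g := by
        rw [add_smul, one_smul]
        exact lt_add_of_pos_right _ hg
      exact absurd (h4.trans_le (h3.trans hz)) (not_lt.2 h1)⟩ ⟨-n, hlow⟩
  refine ⟨f, hf, ?_⟩
  by_contra hcon
  push Not at hcon
  have := hmax (f + 1) hcon
  omega


/-- Positive bases of the lattices of infinitely small elements. -/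
theorem inf_basis (W : (Fin s → ℤ) →+ A) (hind : ∀ δ, W δ = 0 → δ = 0)
    (Λ0 : Submodule ℤ (Fin s → ℤ)) (γ γ0 γ1 : Fin s → ℤ) (d : ℕ) (hd : 0 < d) (hγ0 : γ0 ∈ Λ0)
    (hγ1 : γ0 = γ - (d : ℤ) • γ1) (E : Finset (Fin s → ℤ)) (hE : ∀ e ∈ E, e ∈ Λ0 ∧ 0 < W e) :
    ∃ (b : ℕ) (h : Fin b → Fin s → ℤ), (∀ l, 0 < W (h l)) ∧ (∀ l, h l ∈ Λ0) ∧
      (∀ l, ∃ (u : ℤ) (p : Fin s → ℤ), h l = u • γ + (d : ℤ) • p) ∧
      (∀ c : Fin b → ℤ, ∑ l, c l • h l = 0 → c = 0) ∧
      (∀ δ ∈ Λ0, ∀ a : ℤ, ∃ R : Fin b → ℤ, (d : ℤ) • δ + a • γ0 = ∑ l, R l • h l) ∧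
      (∀ e ∈ E, ∃ R : Fin b → ℕ, (d : ℤ) • e = ∑ l, (R l : ℤ) • h l) := by
  classical
  obtain ⟨Δ, hΔ⟩ := IsNoetherian.noetherian Λ0
  have hΔΛ : ∀ δ ∈ Δ, δ ∈ Λ0 := by
    intro δ hδ
    rw [← hΔ]
    exact Submodule.subset_span hδ
  let Hs : AddSubgroup (Fin s → ℤ) :=
    { carrier := {δ | δ ∈ Λ0 ∧ ∃ (u : ℤ) (p : Fin s → ℤ), δ = u • γ + (d : ℤ) • p}
      zero_mem' := ⟨Λ0.zero_mem, 0, 0, by simp⟩
      add_mem' := by
        rintro a b ⟨ha, u, p, rfl⟩ ⟨hb, u', p', rfl⟩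
        refine ⟨Λ0.add_mem ha hb, u + u', p + p', ?_⟩
        rw [add_smul, smul_add]
        abel
      neg_mem' := by
        rintro a ⟨ha, u, p, rfl⟩
        refine ⟨Λ0.neg_mem ha, -u, -p, ?_⟩
        rw [neg_smul, smul_neg]
        abel }
  have hHd : ∀ δ ∈ Λ0, (d : ℤ) • δ ∈ Hs := fun δ hδ =>
    ⟨Λ0.smul_mem _ hδ, 0, δ, by rw [zero_smul, zero_add]⟩
  have hHγ : γ0 ∈ Hs := ⟨hγ0, 1, -γ1, by rw [hγ1, one_smul, smul_neg, sub_eq_add_neg]⟩
  let S : Finset (Fin s → ℤ) := E.image (fun e => (d : ℤ) • e) ∪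
    (Δ.image (fun e => (d : ℤ) • e) ∪ (Δ.image (fun e => -((d : ℤ) • e)) ∪ {γ0, -γ0}))
  have hSH : ∀ δ ∈ S, δ ∈ Hs := by
    intro δ hδ
    simp only [S, Finset.mem_union, Finset.mem_image, Finset.mem_insert,
      Finset.mem_singleton] at hδ
    rcases hδ with ⟨e, he, rfl⟩ | ⟨e, he, rfl⟩ | ⟨e, he, rfl⟩ | rfl | rfl
    · exact hHd e (hE e he).1
    · exact hHd e (hΔΛ e he)
    · exact Hs.neg_mem (hHd e (hΔΛ e he))
    · exact hHγ
    · exact Hs.neg_mem hHγ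
  let D : Finset A := (S.image W).filter (fun a => 0 < a)
  obtain ⟨b, η, hη0, hηi, hηc, hηn⟩ := Pool.Agent.H176.DT.p_ell.{u} D (by
    intro a ha
    exact (Finset.mem_filter.1 ha).2)
  have hDH : AddSubgroup.closure (D : Set A) ≤ Hs.map W := by
    rw [AddSubgroup.closure_le]
    intro a ha
    obtain ⟨ha1, -⟩ := Finset.mem_filter.1 (Finset.mem_coe.1 ha)
    obtain ⟨δ, hδ, rfl⟩ := Finset.mem_image.1 ha1
    exact ⟨δ, hSH δ hδ, rfl⟩
  have hex : ∀ l, ∃ δ ∈ Hs, W δ = η l := fun l => hDH (hηc l)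
  choose h hhH hhη using hex
  have hinj : ∀ a b : Fin s → ℤ, W a = W b → a = b := by
    intro a b hab
    have h1 : W (a - b) = 0 := by rw [map_sub, hab, sub_self]
    exact sub_eq_zero.1 (hind _ h1)
  have hpos : ∀ δ ∈ S, 0 < W δ → ∃ R : Fin b → ℕ, δ = ∑ l, (R l : ℤ) • h l := by
    intro δ hδ h0
    obtain ⟨R, hR⟩ := hηn (W δ) (Finset.mem_filter.2 ⟨Finset.mem_image_of_mem _ hδ, h0⟩)
    refine ⟨R, hinj _ _ ?_⟩
    rw [hR, map_sum]
    refine Finset.sum_congr rfl fun l _ => ?_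
    rw [map_zsmul, hhη, natCast_zsmul]
  have hspan : ∀ δ, δ ∈ S → -δ ∈ S → δ ∈ Submodule.span ℤ (Set.range h) := by
    have key : ∀ δ ∈ S, 0 < W δ → δ ∈ Submodule.span ℤ (Set.range h) := by
      intro δ hδ h0
      obtain ⟨R, hR⟩ := hpos δ hδ h0
      rw [hR]
      exact Submodule.sum_mem _ fun l _ =>
        Submodule.smul_mem _ _ (Submodule.subset_span ⟨l, rfl⟩)
    intro δ h1 h2
    rcases lt_trichotomy (W δ) 0 with h3 | h3 | h3
    · have h4 := key (-δ) h2 (by rw [map_neg]; exact neg_pos.2 h3)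
      have h5 := Submodule.neg_mem _ h4
      rwa [neg_neg] at h5
    · rw [hind δ h3]
      exact Submodule.zero_mem _
    · exact key δ h1 h3
  have hγ0s : γ0 ∈ Submodule.span ℤ (Set.range h) := by
    refine hspan _ ?_ ?_ <;> simp [S]
  have hds : ∀ δ ∈ Λ0, (d : ℤ) • δ ∈ Submodule.span ℤ (Set.range h) := by
    intro δ hδ
    rw [← hΔ] at hδ
    induction hδ using Submodule.span_induction with
    | mem x hx =>
      refine hspan _ ?_ ?_
      · simp only [S, Finset.mem_union, Finset.mem_image]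
        exact Or.inr (Or.inl ⟨x, hx, rfl⟩)
      · simp only [S, Finset.mem_union, Finset.mem_image]
        exact Or.inr (Or.inr (Or.inl ⟨x, hx, rfl⟩))
    | zero =>
      rw [smul_zero]
      exact Submodule.zero_mem _
    | add x y _ _ hx hy =>
      rw [smul_add]
      exact Submodule.add_mem _ hx hy
    | smul a x _ hx =>
      rw [smul_comm]
      exact Submodule.smul_mem _ _ hx
  refine ⟨b, h, fun l => by rw [hhη]; exact hη0 l, fun l => (hhH l).1, fun l => (hhH l).2, ?_,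
    ?_, ?_⟩
  · intro c hc
    have h1 : ∑ l, c l • η l = 0 := by
      have h2 := congrArg W hc
      rw [map_sum, map_zero] at h2
      rw [← h2]
      refine Finset.sum_congr rfl fun l _ => ?_
      rw [map_zsmul, hhη]
    funext l
    exact (Fintype.linearIndependent_iff.1 hηi) c h1 l
  · intro δ hδ a
    have h1 : (d : ℤ) • δ + a • γ0 ∈ Submodule.span ℤ (Set.range h) :=
      Submodule.add_mem _ (hds δ hδ) (Submodule.smul_mem _ _ hγ0s)
    obtain ⟨R, hR⟩ := (Submodule.mem_span_range_iff_exists_fun ℤ).1 h1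
    exact ⟨R, hR.symm⟩
  · intro e he
    refine hpos _ ?_ ?_
    · simp only [S, Finset.mem_union, Finset.mem_image]
      exact Or.inl ⟨e, he, rfl⟩
    · rw [map_zsmul]
      exact zsmul_pos (hE e he).2 (by exact_mod_cast hd)

end

end Pool.Agent.N98.SS
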