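import Pool.Agent.N98.SS.Comb
import Pool.Agent.H176.DT.B2

/-!
Monomials with a given product in a lattice with an order of arbitrary rank: the main statement.
-/

set_option autoImplicit false
set_option linter.unusedVariables false

universe u

namespace Pool.Agent.N98.SS

section

variable {A : Type u} [AddCommGroup A] [LinearOrder A] [IsOrderedAddMonoid A] {s : ℕ}

lemma single_exp (δ : Fin s → ℤ) : δ = ∑ i, δ i • (Pi.single i 1 : Fin s → ℤ) := by
  funext l
  rw [Finset.sum_apply, Finset.sum_eq_single l]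
  · simp
  · intro i _ hi
    simp [hi]
  · intro h
    exact absurd (Finset.mem_univ _) h

lemma bdd_all (W : (Fin s → ℤ) →+ A) (hpos : ∀ i, 0 < W (Pi.single i 1)) {g : A} (hg : 0 < g)
    (hbd : ∀ i, ∃ n : ℕ, W (Pi.single i 1) ≤ (n : ℤ) • g) (δ : Fin s → ℤ) :
    ∃ n : ℕ, W δ ≤ (n : ℤ) • g ∧ -W δ ≤ (n : ℤ) • g := by
  choose n hn using hbd
  have key : ∀ δ : Fin s → ℤ, W δ ≤ ((∑ i, (δ i).natAbs * n i : ℕ) : ℤ) • g := by
    intro δ
    conv_lhs => rw [single_exp δ]
    rw [map_sum]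
    push_cast
    rw [Finset.sum_smul]
    refine Finset.sum_le_sum fun i _ => ?_
    rw [map_zsmul, mul_smul]
    have h1 : δ i • W (Pi.single i 1) ≤ |δ i| • W (Pi.single i 1) :=
      zsmul_le_zsmul_left (hpos i).le (le_abs_self _)
    refine h1.trans ?_
    exact zsmul_le_zsmul_right (abs_nonneg _) (hn i)
  refine ⟨∑ i, (δ i).natAbs * n i, key δ, ?_⟩
  have h2 := key (-δ)
  rw [map_neg] at h2
  refine h2.trans (le_of_eq ?_)
  congr 3
  funext i
  rw [Pi.neg_apply, Int.natAbs_neg]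

theorem comb_gen (W : (Fin s → ℤ) →+ A) (hpos : ∀ i, 0 < W (Pi.single i 1))
    (hind : ∀ δ, W δ = 0 → δ = 0) (γ : Fin s → ℤ) (hγ : 0 < W γ)
    (hbd : ∀ i, ∃ n : ℕ, W (Pi.single i 1) ≤ (n : ℤ) • W γ) :
    ∃ d M0 : ℕ, 0 < d ∧
      (∃ γ1 : Fin s → ℤ, ∀ n : ℤ, n • W (γ - (d : ℤ) • γ1) < W γ) ∧
      ∀ M : ℕ, M0 ≤ M → 0 < M → ∃ (Mo : Fin s → Fin s → ℤ) (B : Fin s → Fin s → ℕ),
        (∀ k, 0 < W (Mo k)) ∧ ∑ k, Mo k = γ ∧
        (∀ i, ((d : ℤ) * M) • (Pi.single i 1 : Fin s → ℤ) = ∑ k, (B i k : ℤ) • Mo k) ∧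
        ∀ k, ∃ (n : ℤ) (P : Fin s → ℤ), Mo k = n • γ + ((d : ℤ) * M) • P := by
  classical
  set Λ0 := Inf0 W (W γ) hγ with hΛ0
  have htf := Inf0_tf W (W γ) hγ
  have hγn : γ ∉ Λ0 := by
    intro h
    have h1 := h 1
    rw [one_smul] at h1
    exact lt_irrefl _ h1
  obtain ⟨d, t, γ1, g, hd, hγ1, hdec, hindep⟩ := decomp Λ0 htf γ hγn
  set γ0 := γ - (d : ℤ) • γ1 with hγ0
  let E : Finset (Fin s → ℤ) :=
    (Finset.univ.filter (fun i : Fin s => (Pi.single i 1 : Fin s → ℤ) ∈ Λ0)).image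
      (fun i => (Pi.single i 1 : Fin s → ℤ))
  obtain ⟨b, h, hh0, hhΛ, hhup, hhind, hhR, hhE⟩ :=
    inf_basis W hind Λ0 γ γ0 γ1 d hd hγ1 hγ0 E (by
      intro e he
      obtain ⟨i, hi, rfl⟩ := Finset.mem_image.1 he
      exact ⟨(Finset.mem_filter.1 hi).2, hpos i⟩)
  have hco : ∀ i : Fin s, ∃ (a1 : ℤ) (a : Fin t → ℤ) (e0 : Fin s → ℤ) (R : Fin b → ℤ),
      e0 ∈ Λ0 ∧ (Pi.single i 1 : Fin s → ℤ) = a1 • γ1 + ∑ j, a j • g j + e0 ∧
      (d : ℤ) • e0 - a1 • γ0 = ∑ l, R l • h l ∧
      ((Pi.single i 1 : Fin s → ℤ) ∈ Λ0 → a1 = 0 ∧ a = 0 ∧ ∀ l, 0 ≤ R l) := by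
    intro i
    obtain ⟨a1, a, hmem⟩ := hdec (Pi.single i 1)
    by_cases hi : (Pi.single i 1 : Fin s → ℤ) ∈ Λ0
    · have h1 : a1 • γ1 + ∑ j, a j • g j ∈ Λ0 := by
        have := Λ0.sub_mem hi hmem
        rwa [sub_sub_cancel] at this
      obtain ⟨rfl, rfl⟩ := hindep a1 a h1
      obtain ⟨R, hR⟩ := hhE (Pi.single i 1)
        (Finset.mem_image.2 ⟨i, Finset.mem_filter.2 ⟨Finset.mem_univ _, hi⟩, rfl⟩)
      refine ⟨0, 0, Pi.single i 1, fun l => R l, hi, by simp, ?_,
        fun _ => ⟨rfl, rfl, fun l => by positivity⟩⟩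
      rw [zero_smul, sub_zero]
      exact hR
    · obtain ⟨R, hR⟩ := hhR _ hmem (-a1)
      refine ⟨a1, a, _, R, hmem, by abel, ?_, fun h => absurd h hi⟩
      rw [← hR, neg_smul, sub_eq_add_neg]
  choose a1 a e0 R he0 hea heR hinf using hco
  -- bounds
  have hni : ∀ i : Fin s, ∃ n : ℕ, (Pi.single i 1 : Fin s → ℤ) ∉ Λ0 →
      W γ ≤ (n : ℤ) • W (Pi.single i 1) := by
    intro i
    by_cases hi : (Pi.single i 1 : Fin s → ℤ) ∈ Λ0
    · exact ⟨0, fun h => absurd hi h⟩
    · obtain ⟨n, -, hn⟩ := Inf0_ge W (W γ) hγ (hpos i) hi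
      exact ⟨n, fun _ => hn⟩
  choose n0 hn0 using hni
  let c : Fin s → ℕ := fun i => ∑ j, (a i j).natAbs + ∑ l, (R i l).natAbs
  refine ⟨d, ∑ i, (2 * c i + 1) * n0 i + 1, hd, ⟨γ1, hγ1⟩, ?_⟩
  intro M hM hM0
  obtain ⟨N, hN⟩ : ∃ N : ℤ, N = (d : ℤ) * M := ⟨_, rfl⟩
  have hMN : (M : ℤ) ≤ N := by
    rw [hN]
    have : (1 : ℤ) ≤ d := by exact_mod_cast hd
    nlinarith [(by positivity : (0 : ℤ) ≤ M)]
  have hNpos : 0 < N := by
    have : (0 : ℤ) < M := by exact_mod_cast hM0
    omega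
  rw [← hN]
  -- the floors
  have hfl : ∀ j, ∃ f : ℤ, f • W γ ≤ W (N • g j) ∧ W (N • g j) < (f + 1) • W γ := by
    intro j
    obtain ⟨n, h1, h2⟩ := bdd_all W hpos hγ hbd (N • g j)
    exact exists_floor hγ h1 h2
  choose f hf1 hf2 using hfl
  obtain ⟨Z, hZ⟩ : ∃ Z : Fin t → Fin s → ℤ, Z = fun j => N • g j - f j • γ := ⟨_, rfl⟩
  have hZj : ∀ j, Z j = N • g j - f j • γ := fun j => congrFun hZ j
  have hγγ : γ = γ0 + (d : ℤ) • γ1 := by rw [hγ0]; abel
  -- elements of the lattice generated by gamma and the g j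
  have hzero : ∀ (n : ℤ) (m : Fin t → ℤ), n • γ + ∑ j, m j • Z j ∈ Λ0 → n = 0 ∧ m = 0 := by
    intro n m hnm
    have h1 : ((n - ∑ j, m j * f j) * d) • γ1 + ∑ j, (m j * N) • g j ∈ Λ0 := by
      have e1 : n • γ + ∑ j, m j • Z j =
          (n - ∑ j, m j * f j) • γ0 + (((n - ∑ j, m j * f j) * d) • γ1 +
            ∑ j, (m j * N) • g j) := by
        have e2 : ∑ j, m j • Z j = ∑ j, (m j * N) • g j - (∑ j, m j * f j) • γ := by
          rw [Finset.sum_smul, ← Finset.sum_sub_distrib]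
          refine Finset.sum_congr rfl fun j _ => ?_
          rw [hZj, smul_sub, mul_smul, mul_smul]
        rw [e2]
        conv_lhs => rw [hγγ]
        rw [smul_add, smul_add, sub_smul, sub_mul, sub_smul, mul_smul, mul_smul]
        abel
      rw [e1] at hnm
      have h2 := Λ0.sub_mem hnm (Λ0.smul_mem (n - ∑ j, m j * f j) hγ1)
      rwa [add_sub_cancel_left] at h2
    obtain ⟨h2, h3⟩ := hindep _ _ h1
    have h4 : m = 0 := by
      funext j
      have := congrFun h3 j
      simp only [Pi.zero_apply] at this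
      rcases mul_eq_zero.1 this with h5 | h5
      · exact h5
      · omega
    refine ⟨?_, h4⟩
    rw [h4] at h2
    rcases mul_eq_zero.1 h2 with h5 | h5
    · simpa using h5
    · have : (0 : ℤ) < d := by exact_mod_cast hd
      omega
  have hZ1 : ∀ j, 0 < W (Z j) ∧ W (Z j) < W γ := by
    intro j
    constructor
    · refine lt_of_le_of_ne ?_ ?_
      · rw [hZj, map_sub, map_zsmul W (f j), sub_nonneg]
        exact hf1 j
      · intro h0
        have h1 : Z j = 0 := hind _ h0.symm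
        have h2 : (0 : ℤ) • γ + ∑ j', (Pi.single j 1 : Fin t → ℤ) j' • Z j' ∈ Λ0 := by
          rw [zero_smul, zero_add, Finset.sum_eq_single j]
          · rw [h1, smul_zero]
            exact Λ0.zero_mem
          · intro j' _ hj'
            rw [Pi.single_eq_of_ne hj', zero_smul]
          · intro hj
            exact absurd (Finset.mem_univ _) hj
        have h3 := congrFun (hzero _ _ h2).2 j
        simp at h3
    · rw [hZj, map_sub, map_zsmul W (f j), sub_lt_iff_lt_add]
      have h1 := hf2 j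
      rw [add_smul, one_smul] at h1
      rw [add_comm]
      exact h1
  have hZinj : Function.Injective (fun j => W (Z j)) := by
    intro j j' hjj
    by_contra hne
    have h1 : Z j - Z j' = 0 := by
      apply hind
      rw [map_sub]
      exact sub_eq_zero.2 hjj
    have h2 : (0 : ℤ) • γ + ∑ l, ((Pi.single j 1 : Fin t → ℤ) l -
        (Pi.single j' 1 : Fin t → ℤ) l) • Z l ∈ Λ0 := by
      have e1 : ∑ l, ((Pi.single j 1 : Fin t → ℤ) l - (Pi.single j' 1 : Fin t → ℤ) l) • Z l =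
          Z j - Z j' := by
        rw [Finset.sum_congr rfl (fun l _ => sub_smul _ _ (Z l)), Finset.sum_sub_distrib]
        congr 1
        · rw [Finset.sum_eq_single j]
          · rw [Pi.single_eq_same, one_smul]
          · intro l _ hl
            rw [Pi.single_eq_of_ne hl, zero_smul]
          · intro hj
            exact absurd (Finset.mem_univ _) hj
        · rw [Finset.sum_eq_single j']
          · rw [Pi.single_eq_same, one_smul]
          · intro l _ hl
            rw [Pi.single_eq_of_ne hl, zero_smul]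
          · intro hj
            exact absurd (Finset.mem_univ _) hj
      rw [e1, h1, zero_smul, zero_add]
      exact Λ0.zero_mem
    have h3 := congrFun (hzero _ _ h2).2 j
    simp only [Pi.single_eq_same, Pi.single_eq_of_ne hne, Pi.zero_apply] at h3
    omega
  obtain ⟨n, hh, S, hs1, hs2, hs3, hs4, hs5, hs6⟩ :=
    sort_gen (fun j => W (Z j)) (W γ) hγ hZ1 hZinj
  obtain ⟨Mk, hMk⟩ : ∃ Mk : Fin (t + 1) → Fin s → ℤ,
    Mk = fun k => n k • γ + ∑ j, hh k j • Z j := ⟨_, rfl⟩
  have hMkk : ∀ k, Mk k = n k • γ + ∑ j, hh k j • Z j := fun k => congrFun hMk k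
  have hMkpos : ∀ k, 0 < W (Mk k) := by
    intro k
    have h1 := hs1 k
    rw [hMkk, map_add, map_zsmul, map_sum]
    simp only [map_zsmul]
    exact h1
  have hMksum : ∑ k, Mk k = γ := by
    rw [Finset.sum_congr rfl (fun k _ => hMkk k), Finset.sum_add_distrib, ← Finset.sum_smul, hs2,
      one_smul, Finset.sum_comm]
    rw [Finset.sum_congr rfl (fun j _ => (Finset.sum_smul (f := fun k => hh k j) (s := Finset.univ)
      (x := Z j)).symm)]
    rw [Finset.sum_congr rfl (fun j _ => by rw [hs3 j, zero_smul])]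
    simp
  have hMkS : ∀ j, ∑ k, (S k j : ℤ) • Mk k = Z j := by
    intro j
    rw [Finset.sum_congr rfl (fun k _ => by rw [hMkk k, smul_add, ← mul_smul, Finset.smul_sum]),
      Finset.sum_add_distrib, ← Finset.sum_smul, hs5, zero_smul, zero_add, Finset.sum_comm]
    rw [Finset.sum_congr rfl (fun j' _ => by
      rw [Finset.sum_congr rfl (fun k _ => (mul_smul (S k j : ℤ) (hh k j') (Z j')).symm),
        ← Finset.sum_smul, hs6 j j'])]
    simp
  have hMk0 : Mk 0 ∉ Λ0 := by
    intro h0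
    have h1 := hMkpos 0
    rw [hMkk] at h0
    obtain ⟨h2, h3⟩ := hzero _ _ h0
    rw [hMkk, h2, zero_smul, zero_add] at h1
    have h4 : ∑ j, hh 0 j • Z j = 0 := by
      refine Finset.sum_eq_zero fun j _ => ?_
      rw [show hh 0 j = 0 from congrFun h3 j, zero_smul]
    rw [h4, map_zero] at h1
    exact lt_irrefl _ h1
  -- the coefficient of gamma
  obtain ⟨X, hX⟩ : ∃ X : Fin s → ℤ, X = fun i => a1 i * M + ∑ j, a i j * f j := ⟨_, rfl⟩
  have hXi : ∀ i, X i = a1 i * M + ∑ j, a i j * f j := fun i => congrFun hX i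
  have hNe : ∀ i, N • (Pi.single i 1 : Fin s → ℤ) =
      X i • γ + ∑ j, a i j • Z j + (M : ℤ) • ∑ l, R i l • h l := by
    intro i
    have e1 : ∑ j, a i j • Z j = N • ∑ j, a i j • g j - (∑ j, a i j * f j) • γ := by
      rw [Finset.sum_smul, Finset.smul_sum, ← Finset.sum_sub_distrib]
      refine Finset.sum_congr rfl fun j _ => ?_
      rw [hZj, smul_sub, ← mul_smul, ← mul_smul, ← mul_smul, mul_comm (a i j) N]
    rw [← heR i, e1, hXi]
    conv_lhs => rw [hea i]
    rw [smul_add, smul_add, add_smul]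
    have e2 : N • a1 i • γ1 = (a1 i * M) • γ - (M : ℤ) • a1 i • γ0 := by
      rw [hγ0, hN, ← mul_smul, ← mul_smul, smul_sub, ← mul_smul]
      rw [show (M : ℤ) * a1 i = a1 i * M from mul_comm _ _]
      rw [show (d : ℤ) * M * a1 i = a1 i * M * d by ring]
      abel
    have e3 : (M : ℤ) • ((d : ℤ) • e0 i - a1 i • γ0) = N • e0 i - (M : ℤ) • a1 i • γ0 := by
      rw [smul_sub, ← mul_smul (M : ℤ) (d : ℤ), hN, mul_comm (M : ℤ)]
    rw [e2, e3]
    abel
  have hcX : ∀ i, (Pi.single i 1 : Fin s → ℤ) ∉ Λ0 → (c i : ℤ) ≤ X i := by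
    intro i hi
    by_contra hcon
    push Not at hcon
    have h1 : N • W (Pi.single i 1) ≤ ((2 * c i + 1 : ℕ) : ℤ) • W γ := by
      have e1 := congrArg W (hNe i)
      rw [map_zsmul] at e1
      rw [e1, map_add, map_add, map_zsmul, map_sum]
      have h2 : X i • W γ ≤ (c i : ℤ) • W γ := zsmul_le_zsmul_left hγ.le hcon.le
      have h3 : ∑ j, W (a i j • Z j) ≤ (c i : ℤ) • W γ := by
        have h4 : ∑ j, W (a i j • Z j) ≤ ∑ j, ((a i j).natAbs : ℤ) • W γ := by
          refine Finset.sum_le_sum fun j _ => ?_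
          rw [map_zsmul]
          have h5 : a i j • W (Z j) ≤ |a i j| • W (Z j) :=
            zsmul_le_zsmul_left (hZ1 j).1.le (le_abs_self _)
          refine h5.trans ?_
          rw [Int.natCast_natAbs]
          exact zsmul_le_zsmul_right (abs_nonneg _) (hZ1 j).2.le
        refine h4.trans ?_
        rw [← Finset.sum_smul]
        refine zsmul_le_zsmul_left hγ.le ?_
        simp only [c]
        push_cast
        have : (0 : ℤ) ≤ ∑ l, |R i l| := Finset.sum_nonneg fun l _ => abs_nonneg _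
        omega
      have h4 : W ((M : ℤ) • ∑ l, R i l • h l) ≤ W γ := by
        have h5 : (M : ℤ) • ∑ l, R i l • h l ∈ Λ0 :=
          Λ0.smul_mem _ (Λ0.sum_mem fun l _ => Λ0.smul_mem _ (hhΛ l))
        have h6 := h5 1
        rw [one_smul] at h6
        exact h6.le
      refine (add_le_add (add_le_add h2 h3) h4).trans (le_of_eq ?_)
      push_cast
      rw [add_smul, two_mul, add_smul, one_smul]
    have h2 : ((2 * c i + 1 : ℕ) : ℤ) • W γ ≤
        (((2 * c i + 1) * n0 i : ℕ) : ℤ) • W (Pi.single i 1) := by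
      have h3 := zsmul_le_zsmul_right (by positivity : (0 : ℤ) ≤ ((2 * c i + 1 : ℕ) : ℤ)) (hn0 i hi)
      rw [← mul_smul] at h3
      push_cast at h3 ⊢
      exact h3
    have h3 := h1.trans h2
    have h4 : N ≤ (((2 * c i + 1) * n0 i : ℕ) : ℤ) := by
      by_contra hlt
      push Not at hlt
      have h5 : (((2 * c i + 1) * n0 i : ℕ) : ℤ) • W (Pi.single i 1) < N • W (Pi.single i 1) :=
        zsmul_lt_zsmul_left (hpos i) hlt
      exact absurd h3 (not_le.2 h5)
    have h5 : (2 * c i + 1) * n0 i ≤ ∑ i, (2 * c i + 1) * n0 i :=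
      Finset.single_le_sum (f := fun i => (2 * c i + 1) * n0 i) (fun _ _ => Nat.zero_le _)
        (Finset.mem_univ i)
    omega
  have hSa : ∀ i k, |∑ j, a i j * (S k j : ℤ)| ≤ ∑ j, |a i j| := by
    intro i k
    refine (Finset.abs_sum_le_sum_abs _ _).trans (Finset.sum_le_sum fun j _ => ?_)
    rw [abs_mul]
    have h1 : |(S k j : ℤ)| ≤ 1 := by
      rw [abs_of_nonneg (by positivity)]
      exact_mod_cast hs4 k j
    nlinarith [abs_nonneg (a i j), abs_nonneg (S k j : ℤ)]
  obtain ⟨Bk, hBk⟩ : ∃ Bk : Fin s → Fin (t + 1) → ℤ,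
    Bk = fun i k => X i + ∑ j, a i j * (S k j : ℤ) := ⟨_, rfl⟩
  have hBkk : ∀ i k, Bk i k = X i + ∑ j, a i j * (S k j : ℤ) := fun i k => by rw [hBk]
  have hBk0 : ∀ i k, 0 ≤ Bk i k := by
    intro i k
    by_cases hi : (Pi.single i 1 : Fin s → ℤ) ∈ Λ0
    · obtain ⟨h1, h2, -⟩ := hinf i hi
      rw [hBkk, hXi, h1, h2]
      simp
    · have h1 := hcX i hi
      have h2 := neg_le_of_abs_le (hSa i k)
      have h3 : (∑ j, |a i j|) ≤ (c i : ℤ) := by
        simp only [c]
        push_cast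
        have : (0 : ℤ) ≤ ∑ l, |R i l| := Finset.sum_nonneg fun l _ => abs_nonneg _
        omega
      rw [hBkk]
      omega
  have hBR0 : ∀ i l, 0 ≤ Bk i 0 + R i l := by
    intro i l
    by_cases hi : (Pi.single i 1 : Fin s → ℤ) ∈ Λ0
    · obtain ⟨h1, h2, h3⟩ := hinf i hi
      have := h3 l
      have := hBk0 i 0
      omega
    · have h1 := hcX i hi
      have h2 := neg_le_of_abs_le (hSa i 0)
      have h3 : (∑ j, |a i j|) + |R i l| ≤ (c i : ℤ) := by
        simp only [c]
        push_cast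
        have : |R i l| ≤ ∑ l, |R i l| :=
          Finset.single_le_sum (f := fun l => |R i l|) (fun _ _ => abs_nonneg _)
            (Finset.mem_univ l)
        omega
      have h4 := neg_abs_le (R i l)
      rw [hBkk]
      omega
  have hNB : ∀ i, N • (Pi.single i 1 : Fin s → ℤ) =
      ∑ k, Bk i k • Mk k + (M : ℤ) • ∑ l, R i l • h l := by
    intro i
    rw [hNe i]
    congr 1
    have e1 : ∑ k, Bk i k • Mk k = X i • ∑ k, Mk k + ∑ j, a i j • ∑ k, (S k j : ℤ) • Mk k := by
      rw [Finset.smul_sum]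
      simp_rw [Finset.smul_sum]
      rw [Finset.sum_comm, ← Finset.sum_add_distrib]
      refine Finset.sum_congr rfl fun k _ => ?_
      rw [hBkk, add_smul, Finset.sum_smul]
      congr 1
      exact Finset.sum_congr rfl fun j _ => mul_smul _ _ _
    rw [e1, hMksum]
    congr 1
    exact Finset.sum_congr rfl fun j _ => by rw [hMkS j]
  -- the index set
  obtain ⟨sh, hsh⟩ : ∃ sh : Fin s → ℤ, sh = (M : ℤ) • ∑ l, h l := ⟨_, rfl⟩
  have hshΛ : sh ∈ Λ0 := by
    rw [hsh]
    exact Λ0.smul_mem _ (Λ0.sum_mem fun l _ => hhΛ l)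
  let Mo : Fin (t + 1) ⊕ Fin b → Fin s → ℤ :=
    Sum.elim (fun k => Mk k - if k = 0 then sh else 0) (fun l => (M : ℤ) • h l)
  let Bo : Fin s → Fin (t + 1) ⊕ Fin b → ℤ := fun i =>
    Sum.elim (fun k => Bk i k) (fun l => Bk i 0 + R i l)
  have hBo0 : ∀ i k, 0 ≤ Bo i k := by
    rintro i (k | l)
    · exact hBk0 i k
    · exact hBR0 i l
  have hMopos : ∀ k, 0 < W (Mo k) := by
    rintro (k | l)
    · change 0 < W (Mk k - if k = 0 then sh else 0)
      by_cases hk : k = 0
      · rw [if_pos hk, hk, map_sub, sub_pos]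
        obtain ⟨m, hm, hm1⟩ := Inf0_ge W (W γ) hγ (hMkpos 0) hMk0
        have h1 := hshΛ m
        have h2 := h1.trans_le hm1
        by_contra hcon
        push Not at hcon
        exact absurd (zsmul_le_zsmul_right (by positivity : (0 : ℤ) ≤ (m : ℤ)) hcon)
          (not_le.2 h2)
      · rw [if_neg hk, sub_zero]
        exact hMkpos k
    · change 0 < W ((M : ℤ) • h l)
      rw [map_zsmul]
      exact zsmul_pos (hh0 l) (by exact_mod_cast hM0)
  have hMosum : ∑ k, Mo k = γ := by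
    rw [Fintype.sum_sum_type]
    change ∑ k, (Mk k - if k = 0 then sh else 0) + ∑ l, (M : ℤ) • h l = γ
    rw [Finset.sum_sub_distrib, hMksum, Finset.sum_ite_eq' Finset.univ (0 : Fin (t + 1)),
      if_pos (Finset.mem_univ _), hsh, Finset.smul_sum]
    abel
  have hMoB : ∀ i, N • (Pi.single i 1 : Fin s → ℤ) = ∑ k, Bo i k • Mo k := by
    intro i
    rw [Fintype.sum_sum_type]
    change _ = ∑ k, Bk i k • (Mk k - if k = 0 then sh else 0) +
      ∑ l, (Bk i 0 + R i l) • (M : ℤ) • h l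
    rw [hNB i]
    have e1 : ∑ k, Bk i k • (Mk k - if k = 0 then sh else 0) =
        ∑ k, Bk i k • Mk k - Bk i 0 • sh := by
      have e2 : ∀ k : Fin (t + 1), Bk i k • (Mk k - if k = 0 then sh else 0) =
          Bk i k • Mk k - if k = 0 then Bk i 0 • sh else 0 := by
        intro k
        by_cases hk : k = 0
        · rw [if_pos hk, if_pos hk, smul_sub, hk]
        · rw [if_neg hk, if_neg hk, sub_zero, sub_zero]
      rw [Finset.sum_congr rfl (fun k _ => e2 k), Finset.sum_sub_distrib,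
        Finset.sum_ite_eq' Finset.univ (0 : Fin (t + 1)), if_pos (Finset.mem_univ _)]
    have e3 : ∑ l, (Bk i 0 + R i l) • (M : ℤ) • h l =
        Bk i 0 • sh + (M : ℤ) • ∑ l, R i l • h l := by
      rw [hsh, Finset.smul_sum, Finset.smul_sum, Finset.smul_sum, ← Finset.sum_add_distrib]
      refine Finset.sum_congr rfl fun l _ => ?_
      rw [add_smul, smul_comm (R i l) (M : ℤ) (h l)]
    rw [e1, e3]
    abel
  have hMoform : ∀ k, ∃ (n : ℤ) (P : Fin s → ℤ), Mo k = n • γ + N • P := by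
    have hform_h : ∀ l, ∃ (n : ℤ) (P : Fin s → ℤ), (M : ℤ) • h l = n • γ + N • P := by
      intro l
      obtain ⟨u, p, hup⟩ := hhup l
      refine ⟨M * u, p, ?_⟩
      rw [hup, smul_add, ← mul_smul, ← mul_smul, hN, mul_comm (M : ℤ) (d : ℤ)]
    have hform_sh : ∃ (n : ℤ) (P : Fin s → ℤ), sh = n • γ + N • P := by
      choose n P hnP using hform_h
      refine ⟨∑ l, n l, ∑ l, P l, ?_⟩
      rw [hsh, Finset.smul_sum, Finset.sum_congr rfl (fun l _ => hnP l), Finset.sum_add_distrib,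
        Finset.sum_smul, Finset.smul_sum]
    rintro (k | l)
    · change ∃ (n : ℤ) (P : Fin s → ℤ), (Mk k - if k = 0 then sh else 0) = n • γ + N • P
      have h1 : ∃ (n : ℤ) (P : Fin s → ℤ), Mk k = n • γ + N • P := by
        refine ⟨n k - ∑ j, hh k j * f j, ∑ j, hh k j • g j, ?_⟩
        rw [hMkk, sub_smul, Finset.sum_smul, Finset.smul_sum]
        have e1 : ∑ j, hh k j • Z j = ∑ j, N • hh k j • g j - ∑ j, (hh k j * f j) • γ := by
          rw [← Finset.sum_sub_distrib]
          refine Finset.sum_congr rfl fun j _ => ?_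
          rw [hZj, smul_sub, ← mul_smul, ← mul_smul, ← mul_smul, mul_comm (hh k j) N]
        rw [e1]
        abel
      by_cases hk : k = 0
      · rw [if_pos hk]
        obtain ⟨n1, P1, h1⟩ := h1
        obtain ⟨n2, P2, h2⟩ := hform_sh
        refine ⟨n1 - n2, P1 - P2, ?_⟩
        rw [h1, h2, sub_smul, smul_sub]
        abel
      · rw [if_neg hk, sub_zero]
        exact h1
    · exact hform_h l
  -- cardinalities
  have hsing : LinearIndependent ℤ (fun i : Fin s => (Pi.single i 1 : Fin s → ℤ)) := by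
    rw [Fintype.linearIndependent_iff]
    intro gg hgg i
    have h1 := single_exp gg
    rw [hgg] at h1
    rw [h1]
    rfl
  have hcard : Fintype.card (Fin s) = Fintype.card (Fin (t + 1) ⊕ Fin b) := by
    apply le_antisymm
    · refine Pool.Agent.H176.DT.card_le_of_scaled
        (fun i : Fin s => (Pi.single i 1 : Fin s → ℤ)) Mo hsing (fun i => ⟨N, hNpos.ne', ?_⟩)
      rw [hMoB i]
      exact Submodule.sum_mem _ fun k _ =>
        Submodule.smul_mem _ _ (Submodule.subset_span ⟨k, rfl⟩)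
    · have hli : LinearIndependent ℤ (Sum.elim (Sum.elim (fun _ : Fin 1 => γ1) g) h :
          (Fin 1 ⊕ Fin t) ⊕ Fin b → Fin s → ℤ) := by
        rw [Fintype.linearIndependent_iff]
        intro G hG
        rw [Fintype.sum_sum_type, Fintype.sum_sum_type] at hG
        simp only [Sum.elim_inl, Sum.elim_inr, Finset.univ_unique, Finset.sum_singleton] at hG
        have h1 : G (Sum.inl (Sum.inl default)) • γ1 + ∑ j, G (Sum.inl (Sum.inr j)) • g j ∈ Λ0 := by
          have h2 : G (Sum.inl (Sum.inl default)) • γ1 + ∑ j, G (Sum.inl (Sum.inr j)) • g j =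
              -∑ l, G (Sum.inr l) • h l := by
            rw [eq_neg_iff_add_eq_zero]
            exact hG
          rw [h2]
          exact Λ0.neg_mem (Λ0.sum_mem fun l _ => Λ0.smul_mem _ (hhΛ l))
        obtain ⟨h2, h3⟩ := hindep _ _ h1
        have h4 : ∑ l, G (Sum.inr l) • h l = 0 := by
          have h5 : ∑ j, G (Sum.inl (Sum.inr j)) • g j = 0 :=
            Finset.sum_eq_zero fun j _ => by
              rw [show G (Sum.inl (Sum.inr j)) = 0 from congrFun h3 j, zero_smul]
          rw [h2, zero_smul, zero_add, h5, zero_add] at hG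
          exact hG
        have h5 := hhind _ h4
        rintro ((i | j) | l)
        · rw [Subsingleton.elim i default]
          exact h2
        · exact congrFun h3 j
        · exact congrFun h5 l
      have h1 := Pool.Agent.H176.DT.card_le_of_scaled _
        (fun i : Fin s => (Pi.single i 1 : Fin s → ℤ)) hli (fun k => ⟨1, one_ne_zero, by
          rw [single_exp ((1 : ℤ) • _)]
          exact Submodule.sum_mem _ fun i _ =>
            Submodule.smul_mem _ _ (Submodule.subset_span ⟨i, rfl⟩)⟩)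
      simp only [Fintype.card_sum, Fintype.card_fin] at h1 ⊢
      omega
  let e : Fin s ≃ Fin (t + 1) ⊕ Fin b := Fintype.equivOfCardEq hcard
  refine ⟨fun k => Mo (e k), fun i k => (Bo i (e k)).toNat, fun k => hMopos _, ?_, ?_,
    fun k => hMoform _⟩
  · rw [Equiv.sum_comp e (fun k => Mo k)]
    exact hMosum
  · intro i
    rw [hMoB i, ← Equiv.sum_comp e (fun k => Bo i k • Mo k)]
    refine Finset.sum_congr rfl fun k _ => ?_
    rw [Int.toNat_of_nonneg (hBo0 i (e k))]

end

end Pool.Agent.N98.SS
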