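import Pool.Agent.N98.SS.Comb2
import Pool.Agent.Y547.DT6.Comb
import Pool.Agent.H176.DT.B1

/-!
Monomials with a given product in a field with a valuation ring of arbitrary rank.
-/

set_option autoImplicit false
set_option linter.unusedVariables false

universe u

namespace Pool.Agent.N98.SS

open Pool.Agent.W418.LU2 Pool.Agent.H176.DT Pool.Agent.Y547.DT6

section

variable {E : Type u} [Field E] {s : ℕ}

/-- The values of the monomials, written additively. -/
noncomputable def W0 (V : ValuationSubring E) {x : Fin s → E} (hx0 : ∀ i, x i ≠ 0) :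
    (Fin s → ℤ) →+ Additive (V.ValueGroup)ˣ where
  toFun δ := Additive.ofMul (Units.mk0 (V.valuation (mo x δ))
    ((map_ne_zero _).2 (mo_ne_zero hx0 δ)))⁻¹
  map_zero' := by
    have h1 : Units.mk0 (V.valuation (mo x 0))
        ((map_ne_zero _).2 (mo_ne_zero hx0 0)) = 1 := by
      apply Units.ext
      rw [Units.val_mk0, mo_zero, map_one, Units.val_one]
    change Additive.ofMul (Units.mk0 (V.valuation (mo x 0))
        ((map_ne_zero _).2 (mo_ne_zero hx0 0)))⁻¹ = 0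
    rw [h1, inv_one]
    rfl
  map_add' p p' := by
    have h1 : Units.mk0 (V.valuation (mo x (p + p')))
        ((map_ne_zero _).2 (mo_ne_zero hx0 (p + p'))) =
        Units.mk0 (V.valuation (mo x p)) ((map_ne_zero _).2 (mo_ne_zero hx0 p)) *
        Units.mk0 (V.valuation (mo x p')) ((map_ne_zero _).2 (mo_ne_zero hx0 p')) := by
      apply Units.ext
      rw [Units.val_mul, Units.val_mk0, Units.val_mk0, Units.val_mk0, mo_add hx0, map_mul]
    change Additive.ofMul (Units.mk0 (V.valuation (mo x (p + p')))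
        ((map_ne_zero _).2 (mo_ne_zero hx0 _)))⁻¹ = _
    rw [h1, mul_inv]
    rfl

variable (V : ValuationSubring E) {x : Fin s → E} (hx0 : ∀ i, x i ≠ 0)

lemma W0_pos (p : Fin s → ℤ) : 0 < W0 V hx0 p ↔ V.valuation (mo x p) < 1 := by
  change (1 : (V.ValueGroup)ˣ) < (Units.mk0 (V.valuation (mo x p)) _)⁻¹ ↔ _
  rw [one_lt_inv', ← Units.val_lt_val, Units.val_mk0, Units.val_one]

lemma W0_zero (p : Fin s → ℤ) : W0 V hx0 p = 0 ↔ V.valuation (mo x p) = 1 := by
  change (Units.mk0 (V.valuation (mo x p)) _)⁻¹ = (1 : (V.ValueGroup)ˣ) ↔ _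
  rw [inv_eq_one, Units.ext_iff, Units.val_mk0, Units.val_one]

lemma W0_lt (p p' : Fin s → ℤ) : W0 V hx0 p < W0 V hx0 p' ↔
    V.valuation (mo x p') < V.valuation (mo x p) := by
  change (Units.mk0 (V.valuation (mo x p)) _)⁻¹ < (Units.mk0 (V.valuation (mo x p')) _)⁻¹ ↔ _
  rw [inv_lt_inv_iff, ← Units.val_lt_val, Units.val_mk0, Units.val_mk0]

lemma W0_le (p p' : Fin s → ℤ) : W0 V hx0 p ≤ W0 V hx0 p' ↔
    V.valuation (mo x p') ≤ V.valuation (mo x p) := by
  rw [← not_lt, ← not_lt, W0_lt]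

include hx0 in
/-- The monomials with product `ϖ`. -/
theorem comb_field (hx1 : ∀ i, V.valuation (x i) < 1)
    (hind : ∀ δ : Fin s → ℤ, V.valuation (mo x δ) = 1 → δ = 0) (γ : Fin s → ℤ)
    (hprim : ∃ c : Fin s → ℤ, ∑ i, c i * γ i = 1) (hγ : V.valuation (mo x γ) < 1)
    (hbd : ∀ i, ∃ n : ℕ, V.valuation (mo x γ) ^ n ≤ V.valuation (x i)) :
    ∃ d M0 : ℕ, 0 < d ∧ (∃ γ1 : Fin s → ℤ, ∀ n : ℤ, V.valuation (mo x γ) <
        V.valuation (mo x (γ - (d : ℤ) • γ1)) ^ n) ∧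
      ∀ M : ℕ, M0 ≤ M → 0 < M → ∀ {F : Type u} [Field F] [Algebra E F]
        (V' : ValuationSubring F), V'.comap (algebraMap E F) = V → ∀ x' : Fin s → F,
        (∀ i, ∃ w : F, w ≠ 0 ∧ w ∈ V' ∧ w⁻¹ ∈ V' ∧ x' i = w * algebraMap E F (x i)) →
        ∀ ϖ : F, ϖ ^ (d * M) = mo x' γ →
        ∃ (m : Fin s → F) (A : Fin s → Fin s → ℕ), (∀ j, m j ≠ 0) ∧ (∀ j, m j ∈ V') ∧
          (∀ j, (m j)⁻¹ ∉ V') ∧ (∀ i, x' i = ∏ j, m j ^ A i j) ∧ (∀ i, ∃ j, A i j ≠ 0) ∧
          ∏ j, m j = ϖ ∧ ∀ j, ∃ (n : ℤ) (g : Fin s → ℤ), m j = ϖ ^ n * mo x' g := by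
  classical
  obtain ⟨d, M0, hd, ⟨γ1, hγ1⟩, hM⟩ := comb_gen (W0 V hx0)
    (fun i => by rw [W0_pos, mo_single]; exact hx1 i)
    (fun δ h => hind δ ((W0_zero V hx0 δ).1 h)) γ ((W0_pos V hx0 γ).2 hγ)
    (fun i => by
      obtain ⟨n, hn⟩ := hbd i
      refine ⟨n, ?_⟩
      rw [← map_zsmul, W0_le, mo_single, mo_zs, zpow_natCast, map_pow]
      exact hn)
  refine ⟨d, M0, hd, ⟨γ1, fun n => ?_⟩, ?_⟩
  · have h1 := hγ1 n
    rw [← map_zsmul, W0_lt, mo_zs, map_zpow₀] at h1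
    exact h1
  intro M hM1 hM2 F _ _ V' hV' x' hx' ϖ hϖ
  obtain ⟨Mo, B, hMo, hsum, hB, hform⟩ := hM M hM1 hM2
  obtain ⟨c, hc⟩ := hprim
  choose n P hnP using hform
  obtain ⟨N, hN⟩ : ∃ N : ℤ, N = (d : ℤ) * M := ⟨_, rfl⟩
  have hN0 : N ≠ 0 := by
    rw [hN]
    positivity
  rw [← hN] at hB
  simp only [← hN] at hnP
  choose w hw0 hw1 hw2 hw3 using hx'
  have halg : Function.Injective (algebraMap E F) := (algebraMap E F).injective
  have hx'0 : ∀ i, x' i ≠ 0 := by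
    intro i
    rw [hw3 i]
    exact mul_ne_zero (hw0 i) ((map_ne_zero_iff _ halg).2 (hx0 i))
  have hdM : 0 < d * M := Nat.mul_pos hd hM2
  have hϖ0 : ϖ ≠ 0 := by
    rintro rfl
    rw [zero_pow hdM.ne'] at hϖ
    exact mo_ne_zero hx'0 γ hϖ.symm
  have hϖN : ϖ ^ N = mo x' γ := by
    rw [hN, ← hϖ]
    rw [← zpow_natCast]
    congr 1
  -- the key identity
  have hkey : ∀ (C : Fin s → ℤ) (δ : Fin s → ℤ) (a : ℤ), ∑ k, C k • Mo k = N • δ + a • γ →
      ∏ k, (ϖ ^ n k * mo x' (P k)) ^ C k = mo x' δ * ϖ ^ a := by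
    intro C δ a hC
    have e1 : (∑ k, C k * n k) • γ + N • ∑ k, C k • P k = N • δ + a • γ := by
      rw [← hC, Finset.sum_smul, Finset.smul_sum, ← Finset.sum_add_distrib]
      refine Finset.sum_congr rfl fun k _ => ?_
      rw [hnP k, smul_add, mul_smul, smul_comm N (C k)]
    obtain ⟨hh, hhh⟩ : ∃ hh : ℤ, hh = ∑ i, c i * (δ i - (∑ k, C k • P k) i) := ⟨_, rfl⟩
    have e2 : ∑ k, C k * n k = a + N * hh := by
      have e3 : ∑ i, c i * (((∑ k, C k * n k) • γ + N • ∑ k, C k • P k) i) =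
          ∑ i, c i * ((N • δ + a • γ) i) := by rw [e1]
      simp only [Pi.add_apply, Pi.smul_apply, smul_eq_mul, mul_add] at e3
      rw [Finset.sum_add_distrib, Finset.sum_add_distrib] at e3
      have e4 : ∀ z : ℤ, ∑ i, c i * (z * γ i) = z := by
        intro z
        have : ∀ i, c i * (z * γ i) = z * (c i * γ i) := fun i => by ring
        rw [Finset.sum_congr rfl fun i _ => this i, ← Finset.mul_sum, hc, mul_one]
      rw [e4, e4] at e3
      have e5 : N * hh = ∑ i, c i * (N * δ i) - ∑ i, c i * (N * (∑ k, C k • P k) i) := by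
        rw [hhh, Finset.mul_sum, ← Finset.sum_sub_distrib]
        exact Finset.sum_congr rfl fun i _ => by ring
      rw [e5]
      linarith
    have e3 : ∑ k, C k • P k = δ - hh • γ := by
      rw [e2, add_smul, mul_smul] at e1
      have e4 : N • (∑ k, C k • P k) = N • (δ - hh • γ) := by
        rw [smul_sub]
        have e5 : (a • γ + N • hh • γ + N • ∑ k, C k • P k) - (a • γ + N • hh • γ) =
            N • δ + a • γ - (a • γ + N • hh • γ) := by rw [e1]
        rw [add_sub_cancel_left] at e5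
        rw [e5]
        abel
      exact smul_right_injective _ hN0 e4
    have e4 : ∏ k, (ϖ ^ n k * mo x' (P k)) ^ C k =
        ϖ ^ (∑ k, C k * n k) * mo x' (∑ k, C k • P k) := by
      rw [zsum hϖ0, mo_sm hx'0, ← Finset.prod_mul_distrib]
      refine Finset.prod_congr rfl fun k _ => ?_
      rw [mul_zpow, ← zpow_mul, mo_zs, mul_comm (C k) (n k)]
    rw [e4, e2, e3, zpow_add₀ hϖ0, zpow_mul, hϖN, sub_eq_add_neg, mo_add hx'0, ← neg_smul,
      mo_zs, zpow_neg]
    have hne : mo x' γ ^ hh ≠ 0 := zpow_ne_zero _ (mo_ne_zero hx'0 γ)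
    field_simp
  have hmN : ∀ k, (ϖ ^ n k * mo x' (P k)) ^ (d * M) = mo x' (Mo k) := by
    intro k
    rw [hnP k, mo_add hx'0, mo_zs, mo_zs, ← hϖN, hN, mul_pow]
    rw [← zpow_natCast, ← zpow_natCast, ← zpow_mul, ← zpow_mul]
    push_cast
    rw [mul_comm (n k)]
  have hval : ∀ k, V'.valuation (mo x' (Mo k)) < 1 := by
    intro k
    have e3 : mo x' (Mo k) = mo w (Mo k) * algebraMap E F (mo x (Mo k)) := by
      rw [map_mo', ← mo_mu]
      congr 1
      funext i
      exact hw3 i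
    have h1 : V'.valuation (mo w (Mo k)) = 1 := by
      rw [val_one_iff]
      refine ⟨mo_ne_zero hw0 _, mo_V V' hw1 hw2 _, ?_⟩
      rw [← mo_neg]
      exact mo_V V' hw1 hw2 _
    have h2 : V'.valuation (algebraMap E F (mo x (Mo k))) < 1 := by
      rw [← comap_lt, hV']
      exact (W0_pos V hx0 _).1 (hMo k)
    rw [e3, map_mul, h1, one_mul]
    exact h2
  have hvm : ∀ k, V'.valuation (ϖ ^ n k * mo x' (P k)) < 1 := by
    intro k
    by_contra hcon
    push Not at hcon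
    have h1 : 1 ≤ V'.valuation (ϖ ^ n k * mo x' (P k)) ^ (d * M) := one_le_pow₀ hcon
    rw [← map_pow, hmN] at h1
    exact absurd (hval k) (not_lt.2 h1)
  refine ⟨fun k => ϖ ^ n k * mo x' (P k), B, fun k => mul_ne_zero (zpow_ne_zero _ hϖ0)
    (mo_ne_zero hx'0 _), fun k => (V'.valuation_le_one_iff _).1 (hvm k).le, ?_, ?_, ?_, ?_,
    fun k => ⟨n k, P k, rfl⟩⟩
  · intro k hk
    have h1 := (V'.valuation_le_one_iff _).2 hk
    rw [map_inv₀] at h1
    have h2 := hvm k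
    have h3 : V'.valuation (ϖ ^ n k * mo x' (P k)) ≠ 0 :=
      (map_ne_zero _).2 (mul_ne_zero (zpow_ne_zero _ hϖ0) (mo_ne_zero hx'0 _))
    rw [inv_le_one₀ (zero_lt_iff.2 h3)] at h1
    exact absurd h2 (not_lt.2 h1)
  · intro i
    have h1 := hkey (fun k => (B i k : ℤ)) (Pi.single i 1) 0 (by
      rw [zero_smul, add_zero]
      exact (hB i).symm)
    rw [zpow_zero, mul_one, mo_single] at h1
    rw [← h1]
    exact Finset.prod_congr rfl fun k _ => (zpow_natCast _ _)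
  · intro i
    by_contra hcon
    push Not at hcon
    have h1 := hB i
    have h2 : ∑ k, (B i k : ℤ) • Mo k = 0 :=
      Finset.sum_eq_zero fun k _ => by rw [hcon k, Nat.cast_zero, zero_smul]
    rw [h2] at h1
    have h3 := congrFun h1 i
    rw [Pi.smul_apply, Pi.single_eq_same, smul_eq_mul, mul_one, Pi.zero_apply] at h3
    exact hN0 h3
  · have h1 := hkey (fun _ => 1) 0 1 (by
      simp only [one_smul]
      rw [hsum, smul_zero, zero_add])
    rw [zpow_one ϖ, mo_zero, one_mul] at h1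
    refine Eq.trans ?_ h1
    exact Finset.prod_congr rfl fun k _ => (zpow_one _).symm

end

end Pool.Agent.N98.SS
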