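import Pool.Agent.N98.SS.Main
import Pool.Agent.R187.CT.Base

/-!
Semistable models in bounded degree.
-/

set_option autoImplicit false
set_option linter.unusedVariables false
set_option linter.unusedSectionVars false

universe u

namespace Pool.Agent.N98.SS

open IsLocalRing Pool.Agent.W418.LU2 Pool.Agent.N98.RV Pool.Agent.N98 Pool.Agent.N98.RW
  Pool.Agent.H176.DT Pool.Agent.TH188.QS

section prod

variable {E K : Type u} [Field E] [Field K] [Algebra E K] {N e : ℕ} {x : Fin N → K}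

lemma pprod_const (c : E) : PProd (E := E) x e (algebraMap E K c) :=
  ⟨1, fun _ => MvPolynomial.C c, fun _ => 1, fun _ => by
    rw [MvPolynomial.totalDegree_C]; exact Nat.zero_le _, by
    rw [Fin.prod_univ_one, zpow_one, MvPolynomial.aeval_C]⟩

lemma pprod_mul {z w : K} (hz : PProd (E := E) x e z) (hw : PProd (E := E) x e w) :
    PProd (E := E) x e (z * w) := by
  obtain ⟨q, P, n, h, rfl⟩ := hz
  obtain ⟨q', P', n', h', rfl⟩ := hw
  refine ⟨q + q', Fin.append P P', Fin.append n n', ?_, ?_⟩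
  · intro i
    refine Fin.addCases (fun i => ?_) (fun i => ?_) i
    · rw [Fin.append_left]
      exact h i
    · rw [Fin.append_right]
      exact h' i
  · rw [Fin.prod_univ_add]
    simp only [Fin.append_left, Fin.append_right]

lemma pprod_inv {z : K} (hz : PProd (E := E) x e z) : PProd (E := E) x e z⁻¹ := by
  obtain ⟨q, P, n, h, rfl⟩ := hz
  refine ⟨q, P, fun i => - n i, h, ?_⟩
  rw [← Finset.prod_inv_distrib]
  exact Finset.prod_congr rfl fun i _ => (zpow_neg _ _).symm

end prod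

variable {K : Type u} [Field K]

/-- The elements of `E` are fractions with good denominators. -/
lemma frac_of_closure {E : Subfield K} {N e : ℕ} {x : Fin N → K} {A : Subring K} {O : Subring K}
    (hOA : O ≤ A) {T : Set K} (hE : E = Subfield.closure ((O : Set K) ∪ T))
    (hT : ∀ t ∈ T, ∃ b ∈ A, b ≠ 0 ∧ PProd (E := E) x e b ∧ b * t ∈ A) :
    ∀ z ∈ E, ∃ b ∈ A, b ≠ 0 ∧ PProd (E := E) x e b ∧ b * z ∈ A := by
  have h1 : PProd (E := E) x e (1 : K) := by
    have := pprod_const (E := E) (K := K) (x := x) (e := e) 1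
    rwa [map_one] at this
  have key : ∀ z ∈ Subfield.closure ((O : Set K) ∪ T),
      ∃ b ∈ A, b ≠ 0 ∧ PProd (E := E) x e b ∧ b * z ∈ A := by
    intro z hz
    induction hz using Subfield.closure_induction with
    | mem z hz =>
      rcases hz with hz | hz
      · exact ⟨1, A.one_mem, one_ne_zero, h1, by rw [one_mul]; exact hOA hz⟩
      · exact hT z hz
    | one => exact ⟨1, A.one_mem, one_ne_zero, h1, by rw [one_mul]; exact A.one_mem⟩
    | add y z _ _ hy hz =>
      obtain ⟨b, hb, hb0, hbp, hby⟩ := hy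
      obtain ⟨c, hc, hc0, hcp, hcz⟩ := hz
      refine ⟨b * c, A.mul_mem hb hc, mul_ne_zero hb0 hc0, pprod_mul hbp hcp, ?_⟩
      have e1 : b * c * (y + z) = b * y * c + c * z * b := by ring
      rw [e1]
      exact A.add_mem (A.mul_mem hby hc) (A.mul_mem hcz hb)
    | neg y _ hy =>
      obtain ⟨b, hb, hb0, hbp, hby⟩ := hy
      exact ⟨b, hb, hb0, hbp, by rw [mul_neg]; exact A.neg_mem hby⟩
    | inv y hy' hy =>
      obtain ⟨b, hb, hb0, hbp, hby⟩ := hy
      by_cases hy0 : y = 0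
      · exact ⟨1, A.one_mem, one_ne_zero, h1, by rw [hy0, inv_zero, mul_zero]; exact A.zero_mem⟩
      · have hyE : y ∈ E := by rw [hE]; exact hy'
        refine ⟨b * y, hby, mul_ne_zero hb0 hy0,
          pprod_mul hbp (pprod_const (E := E) (K := K) ⟨y, hyE⟩), ?_⟩
        rw [mul_assoc, mul_inv_cancel₀ hy0, mul_one]
        exact hb
    | mul y z _ _ hy hz =>
      obtain ⟨b, hb, hb0, hbp, hby⟩ := hy
      obtain ⟨c, hc, hc0, hcp, hcz⟩ := hz
      refine ⟨b * c, A.mul_mem hb hc, mul_ne_zero hb0 hc0, pprod_mul hbp hcp, ?_⟩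
      have e1 : b * c * (y * z) = b * y * (c * z) := by ring
      rw [e1]
      exact A.mul_mem hby hcz
  intro z hz
  rw [hE] at hz
  exact key z hz

/-- **Stages of models in bounded degree.** -/
theorem stage_of_model [CharZero K] (V : ValuationSubring K) (O : Subring K)
    (hO : O ≤ V.toSubring) (hHJ : HJ O) (E : Subfield K) {N r δ e : ℕ} (he : 1 ≤ e)
    (x : Fin N → K) (htop : IntermediateField.adjoin E (Set.range x) = ⊤)
    (htr : Algebra.trdeg E K = r) (C0 : ℕ)
    (hδ : ∀ t : ℕ, r.factorial * Module.finrank E (img E x t) ≤ δ * (t + C0) ^ r)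
    (hp : ∀ p : ℕ, p.Prime → p ≤ (δ * e ^ r) ^ 2 ^ r → V.valuation (p : K) = 1)
    {W : Set K} (hW : W.Finite) (hWx : ∀ z ∈ W, PProd (E := E) x e z) {w : K} (hw : w ∈ W)
    (hwV : ∀ z ∈ W, z / w ∈ V)
    (hxA : ∀ j, ∃ b ∈ ch O W w, b ≠ 0 ∧ PProd (E := E) x e b ∧ b * x j ∈ ch O W w)
    {T : Set K} (hT : T.Finite) (hE : E = Subfield.closure ((O : Set K) ∪ T))
    (hTA : ∀ t ∈ T, ∃ b ∈ ch O W w, b ≠ 0 ∧ PProd (E := E) x e b ∧ b * t ∈ ch O W w)
    (hOE : ∀ a : O, (a : K) ∈ E)
    (hgE : Pool.Agent.R187.CT.Good (O.subtype.codRestrict E.toSubring hOE : O →+* E)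
      (V.comap (algebraMap E K)))
    (M : Set K) (hM : M.Finite) (hMm : ∀ g ∈ M, g ≠ 0 ∧ g ∈ V ∧ PProd (E := E) x e g) :
    Mod V (ch O W w) ∧ ∃ (T : Set K) (n : ℕ) (X : Fin n → K), St V (ch O W w) T X ∧
      ∀ g ∈ M, PMon (PP V (ch O W w) T) X g := by
  classical
  set A := ch O W w with hA
  have hOA : O ≤ A := fun a ha => Subring.subset_closure (Or.inl ha)
  have hAV : A ≤ V.toSubring := by
    rw [hA]
    unfold ch
    rw [Subring.closure_le]
    rintro z (hz | ⟨y, hy, rfl⟩)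
    · exact hO hz
    · exact hwV y hy
  have hEA := frac_of_closure hOA hE hTA
  -- the fraction field
  have hfrA : ∀ z : K, z ∈ fr A := by
    have hEf : ∀ z ∈ E, z ∈ fr A := by
      intro z hz
      obtain ⟨b, hb, hb0, -, hbz⟩ := hEA z hz
      exact ⟨b, hb, hb0, by rw [mul_comm]; exact hbz⟩
    intro z
    have hz : z ∈ IntermediateField.adjoin E (Set.range x) := by rw [htop]; trivial
    induction hz using IntermediateField.adjoin_induction with
    | mem z hz =>
      obtain ⟨j, rfl⟩ := hz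
      obtain ⟨b, hb, hb0, -, hbz⟩ := hxA j
      exact ⟨b, hb, hb0, by rw [mul_comm]; exact hbz⟩
    | algebraMap c => exact hEf _ c.2
    | add x y _ _ hx hy => exact add_mem hx hy
    | inv x _ hx => exact inv_mem hx
    | mul x y _ _ hx hy => exact mul_mem hx hy
  have hMod : Mod V A := ⟨hAV, fun z => Pool.Agent.R187.CT.fr_iff.2 (hfrA z)⟩
  refine ⟨hMod, ?_⟩
  -- the base
  let ρ : O →+* E := O.subtype.codRestrict E.toSubring hOE
  have hρO : ((ρ.range : Subring E) : Set E) = (O.comap E.subtype : Set E) := by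
    ext z
    constructor
    · rintro ⟨a, rfl⟩
      exact a.2
    · intro hz
      exact ⟨⟨(z : K), hz⟩, rfl⟩
  have hgen : ∃ S : Set E, S.Finite ∧ ∀ z : E, Fr (Pool.Agent.R187.CT.rg ρ S) z := by
    refine ⟨E.subtype ⁻¹' T, hT.preimage (E.subtype.injective.injOn), fun z => ?_⟩
    have h1 : Subfield.closure ((O : Set K) ∪ T) ≤
        (fr (Pool.Agent.R187.CT.rg ρ (E.subtype ⁻¹' T))).map E.subtype := by
      rw [Subfield.closure_le]
      rintro x (hx | hx)
      · exact ⟨ρ ⟨x, hx⟩, le_fr _ (Subring.subset_closure (Or.inl ⟨⟨x, hx⟩, rfl⟩)), rfl⟩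
      · have hxE : x ∈ E := by
          rw [hE]
          exact Subfield.subset_closure (Or.inr hx)
        exact ⟨⟨x, hxE⟩, le_fr _ (Subring.subset_closure (Or.inr hx)), rfl⟩
    rw [← hE] at h1
    obtain ⟨y, hy, hyz⟩ := h1 z.2
    have h2 : y = z := E.subtype.injective hyz
    rw [h2] at hy
    exact Pool.Agent.R187.CT.fr_iff.2 hy
  obtain ⟨S, hS, hSV, hSE⟩ := Pool.Agent.R187.CT.exists_model ρ (V.comap (algebraMap E K))
    (fun a => hO a.2) hgen
  obtain ⟨T₀, hT₀, hgood⟩ := hgE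
  have hGP := hgood S hS hSV fun t _ => hSE t
  set R := Pool.Agent.R187.CT.rg ρ S with hR
  have hHF := hasF_of_gp (V.comap (algebraMap E K)) R hSV hSE hGP
  -- the Veronese embedding
  obtain ⟨N', x', hL, htop', hδ', hxA'⟩ := exists_ver (E := E) he x htop C0 hδ
  have hRU : R.map (algebraMap E K) = Subring.closure ((O : Set K) ∪ (algebraMap E K) '' S) := by
    rw [hR]
    unfold Pool.Agent.R187.CT.rg
    rw [RingHom.map_closure, Set.image_union, hρO]
    congr 2
    ext z
    constructor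
    · rintro ⟨y, hy, rfl⟩
      exact hy
    · intro hz
      exact ⟨⟨z, hOE ⟨z, hz⟩⟩, hz, rfl⟩
  have hinf : Infinite E := by
    have h1 : CharZero E := ⟨fun m n h => by
      have h2 := congrArg Subtype.val h
      push_cast at h2
      exact_mod_cast h2⟩
    exact CharZero.infinite E
  refine exists_stage (E := E) x' htop' htr C0 hδ' V hp R hSE hHF O
    {z | ∃ v ∈ W, z = v / w} ?_ ?_ A hAV rfl ((algebraMap E K) '' S) (hS.image _) hRU ?_
    (hxA' A hxA) M hM fun g hg => ⟨(hMm g hg).1, (hMm g hg).2.1, hL _ (hMm g hg).2.2⟩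
  · refine (hW.image fun y => y / w).subset ?_
    rintro z ⟨y, hy, rfl⟩
    exact ⟨y, hy, rfl⟩
  · rintro z ⟨y, hy, rfl⟩
    rw [div_eq_mul_inv]
    exact hL _ (pprod_mul (hWx y hy) (pprod_inv (hWx w hw)))
  · rintro _ ⟨u, -, rfl⟩
    obtain ⟨b, hb, hb0, hbp, hbu⟩ := hEA _ u.2
    exact ⟨b, hb, hb0, hL _ hbp, hbu⟩

end Pool.Agent.N98.SS
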