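import Pool.Agent.N98.SS.Snc

/-!
The semistable locus is stable under generization.
-/

set_option autoImplicit false
set_option linter.unusedVariables false
set_option linter.unusedSectionVars false

open IsLocalRing Pool.Agent.W418.LU2

universe u

namespace Pool.Agent.N98.SS

/-- Independence after multiplication by units. -/
lemma ind_units {B : Type u} [CommRing B] [IsLocalRing B] {ι : Type} [Fintype ι] {z : ι → B}
    (h : Ind z) (c : ι → B) (hc : ∀ i, IsUnit (c i)) : Ind (fun i => c i * z i) := by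
  refine ⟨fun i => Ideal.mul_mem_left _ _ (h.1 i), fun b hb i => ?_⟩
  have h1 := h.2 (fun i => b i * c i) (by
    have e1 : ∑ i, b i * c i * z i = ∑ i, b i * (c i * z i) :=
      Finset.sum_congr rfl fun i _ => mul_assoc _ _ _
    rw [e1]
    exact hb) i
  exact (Ideal.mul_unit_mem_iff_mem _ (hc i)).1 h1

variable {K : Type u} [Field K]

/-- Regular local rings with a product of parameters. -/
lemma semi_of_ind {P : Subring K} [IsRegularLocalRing P] {ι : Type} [Fintype ι] [Nonempty ι]
    {z : ι → P} (h : Ind z) :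
    ∃ (_ : IsRegularLocalRing P) (n : ℕ) (y : Fin n → P) (S : Finset (Fin n)),
      Ideal.span (Set.range y) = maximalIdeal P ∧ ringKrullDim P = n ∧ S.Nonempty ∧
        ∏ j, (z j : K) = ∏ i ∈ S, (y i : K) := by
  classical
  obtain ⟨m, w, hspan, hdim⟩ := h.extend
  let e := Fintype.equivFin (ι ⊕ Fin m)
  refine ⟨inferInstance, Fintype.card (ι ⊕ Fin m), fun i => Sum.elim z w (e.symm i),
    Finset.univ.image fun j : ι => e (Sum.inl j), ?_, ?_, ?_, ?_⟩
  · rw [← hspan]
    congr 1
    ext v
    constructor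
    · rintro ⟨i, rfl⟩
      exact ⟨_, rfl⟩
    · rintro ⟨i, rfl⟩
      exact ⟨e i, by simp⟩
  · rw [hdim, Fintype.card_sum, Fintype.card_fin]
  · exact ⟨_, Finset.mem_image.2 ⟨Classical.arbitrary ι, Finset.mem_univ _, rfl⟩⟩
  · rw [Finset.prod_image fun a _ b _ h => Sum.inl_injective (e.injective h)]
    exact Finset.prod_congr rfl fun j _ => by simp

/-- The semistable locus is stable under generization. -/
theorem semi_coarse (V V₁ : ValuationSubring K) (hVV : V ≤ V₁) (B : Subring K)
    (hBV : B ≤ V.toSubring) (ϖ : K) (hϖ : V₁.valuation ϖ < 1)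
    (h : ∃ (_ : IsRegularLocalRing (lo V.toSubring B)) (n : ℕ)
      (y : Fin n → lo V.toSubring B) (S : Finset (Fin n)),
      Ideal.span (Set.range y) = maximalIdeal (lo V.toSubring B) ∧
        ringKrullDim (lo V.toSubring B) = n ∧ S.Nonempty ∧ ϖ = ∏ i ∈ S, (y i : K)) :
    ∃ (_ : IsRegularLocalRing (lo V₁.toSubring B)) (n : ℕ)
      (y : Fin n → lo V₁.toSubring B) (S : Finset (Fin n)),
      Ideal.span (Set.range y) = maximalIdeal (lo V₁.toSubring B) ∧
        ringKrullDim (lo V₁.toSubring B) = n ∧ S.Nonempty ∧ ϖ = ∏ i ∈ S, (y i : K) := by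
  classical
  set P := lo V.toSubring B with hP
  set P₁ := lo V₁.toSubring B with hP₁
  obtain ⟨hreg, n, y, S, hspan, hdim, hS, hprod⟩ := h
  have hPP : P ≤ P₁ := by
    rintro _ ⟨a, ha, b, hb, hb0, hbV, rfl⟩
    exact ⟨a, ha, b, hb, hb0, hVV hbV, rfl⟩
  have hBV₁ : B ≤ V₁.toSubring := fun b hb => hVV (hBV hb)
  have hP₁V : ∀ a ∈ P₁, a ∈ V₁ := by
    rintro _ ⟨a, ha, b, hb, hb0, hbV, rfl⟩
    exact V₁.mul_mem _ _ (hBV₁ ha) hbV
  let θ : P →+* V₁ := Subring.inclusion (fun a ha => hP₁V a (hPP ha) : P ≤ V₁.toSubring)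
  let Q : Ideal P := (maximalIdeal V₁).comap θ
  have hQ : ∀ a : P, a ∈ Q ↔ V₁.valuation (a : K) < 1 := by
    intro a
    change θ a ∈ maximalIdeal V₁ ↔ _
    rw [V₁.valuation_lt_one_iff]
    rfl
  have hQp : Q.IsPrime := Ideal.IsPrime.comap θ
  let _ : Algebra P P₁ := (Subring.inclusion hPP).toAlgebra
  have halg : ∀ a : P, ((algebraMap P P₁ a : P₁) : K) = a := fun a => rfl
  have hloc : IsLocalization.AtPrime P₁ Q := by
    refine ⟨?_, ?_, ?_⟩
    · rintro ⟨a, ha⟩
      have h1 : ¬ V₁.valuation (a : K) < 1 := fun h1 => ha ((hQ a).2 h1)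
      have h2 : V₁.valuation (a : K) = 1 := by
        refine le_antisymm ((V₁.valuation_le_one_iff _).2 (hP₁V _ (hPP a.2))) (not_lt.1 h1)
      have ha0 : (a : K) ≠ 0 := by
        intro h0
        rw [h0, map_zero] at h2
        exact zero_ne_one h2
      have h3 : (a : K)⁻¹ ∈ V₁ := by
        rw [← V₁.valuation_le_one_iff, map_inv₀, h2, inv_one]
      obtain ⟨b, hb, c, hc, hc0, hcV, hbc⟩ := a.2
      have h4 : (a : K)⁻¹ ∈ P₁ := by
        refine ⟨c, hc, b, hb, ?_, ?_, ?_⟩
        · rintro rfl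
          rw [zero_mul] at hbc
          exact ha0 hbc
        · have h5 : b⁻¹ = (a : K)⁻¹ * c⁻¹ := by
            rw [hbc, mul_inv, inv_inv, mul_assoc, mul_inv_cancel₀ hc0, mul_one]
          rw [h5]
          exact V₁.mul_mem _ _ h3 (hVV hcV)
        · rw [hbc, mul_inv, inv_inv, mul_comm]
      refine isUnit_iff_exists_inv.2 ⟨⟨_, h4⟩, Subtype.ext ?_⟩
      change (a : K) * (a : K)⁻¹ = 1
      exact mul_inv_cancel₀ ha0
    · rintro ⟨z, a, ha, b, hb, hb0, hbV, rfl⟩
      have hbP : b ∈ P := ⟨b, hb, 1, B.one_mem, one_ne_zero, by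
        rw [inv_one]; exact V.one_mem, by rw [inv_one, mul_one]⟩
      have haP : a ∈ P := ⟨a, ha, 1, B.one_mem, one_ne_zero, by
        rw [inv_one]; exact V.one_mem, by rw [inv_one, mul_one]⟩
      refine ⟨(⟨a, haP⟩, ⟨⟨b, hbP⟩, ?_⟩), Subtype.ext ?_⟩
      · intro h1
        have h2 := (hQ _).1 h1
        have h3 := (V₁.valuation_le_one_iff _).2 hbV
        rw [map_inv₀] at h3
        have h4 : V₁.valuation b ≠ 0 := (map_ne_zero _).2 hb0
        rw [inv_le_one₀ (zero_lt_iff.2 h4)] at h3
        exact absurd h2 (not_lt.2 h3)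
      · change a * b⁻¹ * b = a
        rw [mul_assoc, inv_mul_cancel₀ hb0, mul_one]
    · intro a b hab
      refine ⟨1, ?_⟩
      have h1 : a = b := Subtype.ext (congrArg (fun t : P₁ => (t : K)) hab)
      rw [h1]
  let e : Localization.AtPrime Q ≃+* P₁ :=
    (IsLocalization.algEquiv Q.primeCompl (Localization.AtPrime Q) P₁).toRingEquiv
  have he : ∀ a : P, e (algebraMap P (Localization.AtPrime Q) a) = algebraMap P P₁ a := fun a =>
    (IsLocalization.algEquiv Q.primeCompl (Localization.AtPrime Q) P₁).commutes a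
  have hreg₁ : IsRegularLocalRing (Localization.AtPrime Q) := regular_localization Q
  have hreg₂ : IsRegularLocalRing P₁ := IsRegularLocalRing.of_ringEquiv e
  have hind : Ind y := ind_of_span hspan (by rw [hdim, Fintype.card_fin])
  obtain ⟨-, hsnc⟩ := snc_of_ind hind Q
  let ι : Type := {i : Fin n // i ∈ S ∧ y i ∈ Q}
  let z : ι → P₁ := fun i => algebraMap P P₁ (y i.1)
  have hem : ∀ a : Localization.AtPrime Q, a ∈ maximalIdeal (Localization.AtPrime Q) ↔
      e a ∈ maximalIdeal P₁ := by
    intro a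
    rw [mem_maximalIdeal, mem_maximalIdeal, mem_nonunits_iff, mem_nonunits_iff, not_iff_not]
    exact ⟨fun h => h.map e, fun h => by
      have h1 := h.map e.symm
      rwa [e.symm_apply_apply] at h1⟩
  have hmap : (maximalIdeal P₁).map e.symm.toRingHom ≤ maximalIdeal (Localization.AtPrime Q) := by
    rw [Ideal.map_le_iff_le_comap]
    intro b hb
    change e.symm b ∈ maximalIdeal (Localization.AtPrime Q)
    rw [hem, e.apply_symm_apply]
    exact hb
  have hz : Ind z := by
    constructor
    · intro i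
      change algebraMap P P₁ (y i.1) ∈ _
      rw [← he, ← hem]
      exact (IsLocalization.AtPrime.to_map_mem_maximal_iff (Localization.AtPrime Q) Q _).2 i.2.2
    · intro c hc i
      have h1 : ∑ j, (if h : j ∈ S ∧ y j ∈ Q then e.symm (c ⟨j, h⟩) else 0) *
          algebraMap P (Localization.AtPrime Q) (y j) = e.symm (∑ j, c j * z j) := by
        rw [map_sum]
        symm
        refine Fintype.sum_of_injective (fun j : ι => j.1) Subtype.val_injective _ _ ?_ ?_
        · intro j hj
          rw [dif_neg, zero_mul]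
          intro h
          exact hj ⟨⟨j, h⟩, rfl⟩
        · intro j
          rw [dif_pos j.2, map_mul]
          congr 1
          rw [e.symm_apply_eq, he]
      have h2 := hsnc (fun j => if h : j ∈ S ∧ y j ∈ Q then e.symm (c ⟨j, h⟩) else 0)
        (fun j hj => dif_neg fun h => hj h.2) (by
          rw [h1]
          have h3 := Ideal.mem_map_of_mem e.symm.toRingHom hc
          rw [Ideal.map_pow] at h3
          exact Ideal.pow_right_mono hmap 2 h3) i.1
      simp only [dif_pos i.2] at h2
      rw [hem, e.apply_symm_apply] at h2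
      exact h2
  -- the product
  have hval1 : ∀ i ∈ S, y i ∉ Q → V₁.valuation (y i : K) = 1 := by
    intro i _ hi
    refine le_antisymm ((V₁.valuation_le_one_iff _).2 (hP₁V _ (hPP (y i).2))) ?_
    by_contra hcon
    exact hi ((hQ _).2 (not_le.1 hcon))
  let S₁ := S.filter fun i => y i ∈ Q
  let S₂ := S.filter fun i => ¬ y i ∈ Q
  have hprod2 : ϖ = (∏ i ∈ S₁, (y i : K)) * ∏ i ∈ S₂, (y i : K) := by
    rw [hprod]
    exact (Finset.prod_filter_mul_prod_filter_not S (fun i => y i ∈ Q) _).symm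
  have hval2 : V₁.valuation (∏ i ∈ S₂, (y i : K)) = 1 := by
    rw [map_prod]
    refine Finset.prod_eq_one fun i hi => ?_
    obtain ⟨h1, h2⟩ := Finset.mem_filter.1 hi
    exact hval1 i h1 h2
  have hne : S₁.Nonempty := by
    by_contra hcon
    rw [Finset.not_nonempty_iff_eq_empty] at hcon
    rw [hprod2, hcon, Finset.prod_empty, one_mul, hval2] at hϖ
    exact lt_irrefl _ hϖ
  obtain ⟨i0, hi0⟩ := hne
  let j0 : ι := ⟨i0, (Finset.mem_filter.1 hi0)⟩
  have hneι : Nonempty ι := ⟨j0⟩
  let U : P := ∏ i ∈ S₂, y i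
  have hUv : V₁.valuation (U : K) = 1 := by
    have e1 : (U : K) = ∏ i ∈ S₂, (y i : K) := by
      simp only [U]
      rw [SubmonoidClass.coe_finsetProd]
    rw [e1]
    exact hval2
  have hUu : IsUnit (algebraMap P P₁ U) := by
    refine IsLocalization.map_units P₁ (⟨U, ?_⟩ : Q.primeCompl)
    intro h1
    have h2 := (hQ _).1 h1
    rw [hUv] at h2
    exact lt_irrefl _ h2
  have hind' := ind_units hz (fun i => if i = j0 then algebraMap P P₁ U else 1) (by
    intro i
    by_cases hi : i = j0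
    · simp only [if_pos hi]
      exact hUu
    · simp only [if_neg hi]
      exact isUnit_one)
  obtain ⟨h1, n', y', S', h2, h3, h4, h5⟩ := semi_of_ind hind'
  refine ⟨h1, n', y', S', h2, h3, h4, ?_⟩
  rw [← h5, hprod2]
  have e1 : ∏ j : ι, (((if j = j0 then algebraMap P P₁ U else 1) * z j : P₁) : K) =
      (∏ j : ι, (y j.1 : K)) * (U : K) := by
    have e2 : ∀ j : ι, (((if j = j0 then algebraMap P P₁ U else 1) * z j : P₁) : K) =
        (y j.1 : K) * (if j = j0 then (U : K) else 1) := by
      intro j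
      by_cases hj : j = j0
      · rw [if_pos hj, if_pos hj, mul_comm]
        rfl
      · rw [if_neg hj, if_neg hj, one_mul, mul_one]
        rfl
    rw [Finset.prod_congr rfl fun j _ => e2 j, Finset.prod_mul_distrib]
    congr 1
    rw [Finset.prod_ite_eq' Finset.univ j0, if_pos (Finset.mem_univ _)]
  rw [e1]
  congr 1
  · rw [← Finset.prod_subtype S₁ (p := fun i => i ∈ S ∧ y i ∈ Q) (fun i => Finset.mem_filter)
      (fun i => (y i : K))]
  · simp only [U]
    rw [SubmonoidClass.coe_finsetProd]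

end Pool.Agent.N98.SS
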