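import Pool.Agent.N98.SS.Fin
import Pool.Agent.N98.SS.Gen
import Pool.Agent.N98.SS.Gener

/-!
Semistable models in bounded degree, in arbitrary characteristic.
-/

set_option autoImplicit false
set_option linter.unusedVariables false
set_option linter.unusedSectionVars false

universe u

namespace Pool.Agent.N98.SS

open IsLocalRing Pool.Agent.W418.LU2 Pool.Agent.N98.RV Pool.Agent.N98 Pool.Agent.N98.RW
  Pool.Agent.H176.DT Pool.Agent.TH188.QS

variable {K : Type u} [Field K]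

/-- **Stages of models in bounded degree.** -/
theorem stage_of_model' (V : ValuationSubring K) (O : Subring K)
    (hO : O ≤ V.toSubring) (hHJ : HJ O) (E : Subfield K) {N r δ e : ℕ} (he : 1 ≤ e)
    (x : Fin N → K) (htop : IntermediateField.adjoin E (Set.range x) = ⊤)
    (htr : Algebra.trdeg E K = r) (C0 : ℕ)
    (hδ : ∀ t : ℕ, r.factorial * Module.finrank E (img E x t) ≤ δ * (t + C0) ^ r)
    (hp : ∀ p : ℕ, p.Prime → p ≤ (δ * e ^ r) ^ 2 ^ r → V.valuation (p : K) = 1)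
    {W : Set K} (hW : W.Finite) (hWx : ∀ z ∈ W, PProd (E := E) x e z) {w : K} (hw : w ∈ W)
    (hwV : ∀ z ∈ W, z / w ∈ V)
    (hxA : ∀ j, ∃ b ∈ ch O W w, b ≠ 0 ∧ PProd (E := E) x e b ∧ b * x j ∈ ch O W w)
    {T : Set K} (hT : T.Finite) (hE : E = Subfield.closure ((O : Set K) ∪ T))
    (hTA : ∀ t ∈ T, ∃ b ∈ ch O W w, b ≠ 0 ∧ PProd (E := E) x e b ∧ b * t ∈ ch O W w)
    (hOE : ∀ a : O, (a : K) ∈ E)
    [hinf : Infinite E] (hgE : Pool.Agent.R187.CT.Good (O.subtype.codRestrict E.toSubring hOE : O →+* E)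
      (V.comap (algebraMap E K)))
    (M : Set K) (hM : M.Finite) (hMm : ∀ g ∈ M, g ≠ 0 ∧ g ∈ V ∧ PProd (E := E) x e g) :
    Mod V (ch O W w) ∧ ∃ (T : Set K) (n : ℕ) (X : Fin n → K), St V (ch O W w) T X ∧
      ∀ g ∈ M, PMon (PP V (ch O W w) T) X g := by
  classical
  set A := ch O W w with hA
  have hOA : O ≤ A := fun a ha => Subring.subset_closure (Or.inl ha)
  have hAV : A ≤ V.toSubring := by
    rw [hA]
    unfold ch
    rw [Subring.closure_le]
    rintro z (hz | ⟨y, hy, rfl⟩)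
    · exact hO hz
    · exact hwV y hy
  have hEA := frac_of_closure hOA hE hTA
  -- the fraction field
  have hfrA : ∀ z : K, z ∈ fr A := by
    have hEf : ∀ z ∈ E, z ∈ fr A := by
      intro z hz
      obtain ⟨b, hb, hb0, -, hbz⟩ := hEA z hz
      exact ⟨b, hb, hb0, by rw [mul_comm]; exact hbz⟩
    intro z
    have hz : z ∈ IntermediateField.adjoin E (Set.range x) := by rw [htop]; trivial
    induction hz using IntermediateField.adjoin_induction with
    | mem z hz =>
      obtain ⟨j, rfl⟩ := hz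
      obtain ⟨b, hb, hb0, -, hbz⟩ := hxA j
      exact ⟨b, hb, hb0, by rw [mul_comm]; exact hbz⟩
    | algebraMap c => exact hEf _ c.2
    | add x y _ _ hx hy => exact add_mem hx hy
    | inv x _ hx => exact inv_mem hx
    | mul x y _ _ hx hy => exact mul_mem hx hy
  have hMod : Mod V A := ⟨hAV, fun z => Pool.Agent.R187.CT.fr_iff.2 (hfrA z)⟩
  refine ⟨hMod, ?_⟩
  -- the base
  let ρ : O →+* E := O.subtype.codRestrict E.toSubring hOE
  have hρO : ((ρ.range : Subring E) : Set E) = (O.comap E.subtype : Set E) := by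
    ext z
    constructor
    · rintro ⟨a, rfl⟩
      exact a.2
    · intro hz
      exact ⟨⟨(z : K), hz⟩, rfl⟩
  have hgen : ∃ S : Set E, S.Finite ∧ ∀ z : E, Fr (Pool.Agent.R187.CT.rg ρ S) z := by
    refine ⟨E.subtype ⁻¹' T, hT.preimage (E.subtype.injective.injOn), fun z => ?_⟩
    have h1 : Subfield.closure ((O : Set K) ∪ T) ≤
        (fr (Pool.Agent.R187.CT.rg ρ (E.subtype ⁻¹' T))).map E.subtype := by
      rw [Subfield.closure_le]
      rintro x (hx | hx)
      · exact ⟨ρ ⟨x, hx⟩, le_fr _ (Subring.subset_closure (Or.inl ⟨⟨x, hx⟩, rfl⟩)), rfl⟩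
      · have hxE : x ∈ E := by
          rw [hE]
          exact Subfield.subset_closure (Or.inr hx)
        exact ⟨⟨x, hxE⟩, le_fr _ (Subring.subset_closure (Or.inr hx)), rfl⟩
    rw [← hE] at h1
    obtain ⟨y, hy, hyz⟩ := h1 z.2
    have h2 : y = z := E.subtype.injective hyz
    rw [h2] at hy
    exact Pool.Agent.R187.CT.fr_iff.2 hy
  obtain ⟨S, hS, hSV, hSE⟩ := Pool.Agent.R187.CT.exists_model ρ (V.comap (algebraMap E K))
    (fun a => hO a.2) hgen
  obtain ⟨T₀, hT₀, hgood⟩ := hgE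
  have hGP := hgood S hS hSV fun t _ => hSE t
  set R := Pool.Agent.R187.CT.rg ρ S with hR
  have hHF := hasF_of_gp (V.comap (algebraMap E K)) R hSV hSE hGP
  -- the Veronese embedding
  obtain ⟨N', x', hL, htop', hδ', hxA'⟩ := exists_ver (E := E) he x htop C0 hδ
  have hRU : R.map (algebraMap E K) = Subring.closure ((O : Set K) ∪ (algebraMap E K) '' S) := by
    rw [hR]
    unfold Pool.Agent.R187.CT.rg
    rw [RingHom.map_closure, Set.image_union, hρO]
    congr 2
    ext z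
    constructor
    · rintro ⟨y, hy, rfl⟩
      exact hy
    · intro hz
      exact ⟨⟨z, hOE ⟨z, hz⟩⟩, hz, rfl⟩
  refine exists_stage (E := E) x' htop' htr C0 hδ' V hp R hSE hHF O
    {z | ∃ v ∈ W, z = v / w} ?_ ?_ A hAV rfl ((algebraMap E K) '' S) (hS.image _) hRU ?_
    (hxA' A hxA) M hM fun g hg => ⟨(hMm g hg).1, (hMm g hg).2.1, hL _ (hMm g hg).2.2⟩
  · refine (hW.image fun y => y / w).subset ?_
    rintro z ⟨y, hy, rfl⟩
    exact ⟨y, hy, rfl⟩
  · rintro z ⟨y, hy, rfl⟩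
    rw [div_eq_mul_inv]
    exact hL _ (pprod_mul (hWx y hy) (pprod_inv (hWx w hw)))
  · rintro _ ⟨u, -, rfl⟩
    obtain ⟨b, hb, hb0, hbp, hbu⟩ := hEA _ u.2
    exact ⟨b, hb, hb0, hL _ hbp, hbu⟩

end Pool.Agent.N98.SS
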