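import Pool.Agent.N98.SS.Vert

/-!
Products of vertical centres over different primes; generization of normal crossings.
-/

set_option autoImplicit false
set_option linter.unusedVariables false
set_option linter.unusedSectionVars false

universe u

open scoped Pointwise

namespace Pool.Agent.N98.SS

open IsLocalRing Pool.Agent.W418.LU2 Pool.Agent.TH188.QS Pool.Agent.H176.DT Pool.Agent.R187.CT

variable {K : Type u} [Field K]

theorem vc_mul {O : Subring K} {N M : K} (hN : N ∈ O) (hM : M ∈ O) {W Y₁ Y₂ : Set K}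
    (h1 : Vc O N W Y₁) (h2 : Vc O M W Y₂) : Vc O (N * M) W (Y₁ * Y₂) := by
  obtain ⟨f1, d1, n1, a1, b1⟩ := h1
  obtain ⟨f2, d2, n2, a2, b2⟩ := h2
  refine ⟨f1.mul f2, d1 + d2, n1 + n2, ?_, ?_⟩
  · rintro _ ⟨y1, hy1, y2, hy2, rfl⟩
    change y1 * y2 ∈ (Submodule.span O W) ^ (d1 + d2)
    rw [pow_add]
    exact Submodule.mul_mem_mul (a1 hy1) (a2 hy2)
  · intro z hz
    rw [pow_add] at hz
    rw [← Submodule.span_mul_span]
    refine Submodule.mul_induction_on hz (fun a ha b hb => ?_) (fun a b ha hb => ?_)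
    · have h5 := Submodule.mul_mem_mul (b1 a ha) (b2 b hb)
      have h6 : (N * M) ^ (n1 + n2) * (a * b) =
          (N ^ n2 * M ^ n1) * (N ^ n1 * a * (M ^ n2 * b)) := by ring
      rw [h6]
      exact smul_O (O.mul_mem (O.pow_mem hN _) (O.pow_mem hM _)) h5
    · rw [mul_add]
      exact add_mem ha hb

/-- Blowing-ups in centres over other primes. -/
theorem rc_bu {V : ValuationSubring K} {O : Subring K} (hO : ∀ a ∈ O, a ∈ V) {W Y Y' : Set K}
    {p q : K} (hq0 : q ≠ 0) (hqV : q⁻¹ ∈ V) (h : Vc O q W Y') (hR : Rc V O (bu W Y) p) :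
    Rc V O (bu (bu W Y) Y') p := by
  obtain ⟨_, ⟨y0, hy0Y, w, hw, rfl⟩, hw'0, hwV', hNC⟩ := hR
  have hy00 : y0 ≠ 0 := left_ne_zero_of_mul hw'0
  have hw0 : w ≠ 0 := right_ne_zero_of_mul hw'0
  have hwV : ∀ v ∈ W, v / w ∈ V := by
    intro v hv
    have h1 := hwV' (y0 * v) ⟨y0, hy0Y, v, hv, rfl⟩
    rwa [mul_div_mul_left _ _ hy00] at h1
  have hle : ch O W w ≤ ch O (bu W Y) (y0 * w) := ch_le hw0 hy0Y hy00
  obtain ⟨y₁, hy₁, hy₁0⟩ := h.exists_ne hq0 hw hw0
  obtain ⟨hYf, d, n, h1, h2⟩ := h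
  obtain ⟨y, hy, hym⟩ := Set.exists_max_image Y' V.valuation hYf ⟨y₁, hy₁⟩
  have hy0 : y ≠ 0 := by
    rintro rfl
    have h3 := hym y₁ hy₁
    rw [map_zero, le_zero_iff, map_eq_zero] at h3
    exact hy₁0 h3
  have hyV : ∀ z ∈ Y', z / y ∈ V := by
    intro z hz
    rw [← V.valuation_le_one_iff, map_div₀]
    exact (div_le_one₀ (zero_lt_iff.2 ((map_ne_zero _).2 hy0))).2 (hym z hz)
  have hAV : ch O (bu W Y) (y0 * w) ≤ V.toSubring := by
    rw [Subring.closure_le]
    rintro z (hz | ⟨v, hv, rfl⟩)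
    · exact hO z hz
    · exact hwV' v hv
  have hspan : ∀ z ∈ Submodule.span O Y', z / y ∈ V := by
    intro z hz
    induction hz using Submodule.span_induction with
    | mem x hx => exact hyV x hx
    | zero => rw [zero_div]; exact V.zero_mem
    | add a b _ _ ha hb => rw [add_div]; exact V.add_mem _ _ ha hb
    | smul a x _ hx =>
      have h3 : (a • x) / y = (a : K) * (x / y) := mul_div_assoc _ _ _
      rw [h3]
      exact V.mul_mem _ _ (hO a a.2) hx
  have hunit : (y / w ^ d)⁻¹ ∈ V := by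
    have h3 := hspan _ (h2 (w ^ d) (Submodule.pow_mem_pow _ (Submodule.subset_span hw) d))
    have h4 : (y / w ^ d)⁻¹ = (q⁻¹) ^ n * (q ^ n * w ^ d / y) := by
      rw [inv_div, inv_pow]
      field_simp
    rw [h4]
    exact V.mul_mem _ _ (pow_mem hqV n) h3
  have hyw0 : y / w ^ d ≠ 0 := div_ne_zero hy0 (pow_ne_zero _ hw0)
  refine ⟨y * (y0 * w), ⟨y, hy, y0 * w, ⟨y0, hy0Y, w, hw, rfl⟩, rfl⟩, mul_ne_zero hy0 hw'0, ?_, ?_⟩
  · rintro _ ⟨z, hz, v, hv, rfl⟩
    rw [mul_div_mul_comm]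
    exact V.mul_mem _ _ (hyV z hz) (hwV' v hv)
  · have h3 : lo V.toSubring (ch O (Pool.Agent.H176.DT.bu (Pool.Agent.H176.DT.bu W Y) Y')
        (y * (y0 * w))) = lo V.toSubring (ch O (Pool.Agent.H176.DT.bu W Y) (y0 * w)) := by
      apply le_antisymm
      · refine lo_le_lo hAV ?_
        rw [Subring.closure_le]
        rintro z (hz | ⟨_, ⟨x, hx, v, hv, rfl⟩, rfl⟩)
        · exact le_lo _ _ (Subring.subset_closure (Or.inl hz))
        · rw [mul_div_mul_comm]
          refine Subring.mul_mem _ ?_ (le_lo _ _ (Subring.subset_closure (Or.inr ⟨v, hv, rfl⟩)))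
          refine ⟨x / w ^ d, hle (div_pow_mem hw0 d x (h1 hx)), y / w ^ d,
            hle (div_pow_mem hw0 d y (h1 hy)), hyw0, hunit, ?_⟩
          have hwd : w ^ d ≠ 0 := pow_ne_zero _ hw0
          field_simp
      · exact lo_mono (ch_le hw'0 hy hy0)
    rw [h3]
    exact hNC

/-- Several primes. -/
theorem multi_prod [CharZero K] (O : Subring K) (S : Finset ℕ) (hS : ∀ p ∈ S, p.Prime)
    (V : ℕ → ValuationSubring K) (hO : ∀ p ∈ S, ∀ a ∈ O, a ∈ V p)
    (hV : ∀ p ∈ S, (V p).valuation (p : K) < 1) (W : Set K)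
    (hone : ∀ p ∈ S, ∃ Y, Vc O (p : K) W Y ∧ Rc (V p) O (bu W Y) (p : K)) :
    ∃ Y : Set K, Vc O ((∏ p ∈ S, p : ℕ) : K) W Y ∧ ∀ p ∈ S, Rc (V p) O (bu W Y) (p : K) := by
  classical
  choose! Y hY1 hY2 using hone
  have hvc : ∀ S' : Finset ℕ, S' ⊆ S → Vc O ((∏ p ∈ S', p : ℕ) : K) W (∏ p ∈ S', Y p) := by
    intro S'
    induction S' using Finset.induction_on with
    | empty =>
      intro _
      rw [Finset.prod_empty, Finset.prod_empty]
      refine ⟨Set.finite_one, 0, 0, ?_, ?_⟩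
      · rintro _ rfl
        rw [pow_zero]
        exact Submodule.one_le.1 le_rfl
      · intro z hz
        rw [pow_zero, Submodule.one_eq_span] at hz
        rw [pow_zero, one_mul]
        exact hz
    | insert q S' hq ih =>
      intro hsub
      rw [Finset.prod_insert hq, Finset.prod_insert hq, Nat.cast_mul]
      exact vc_mul (natCast_mem O _) (natCast_mem O _) (hY1 q (hsub (Finset.mem_insert_self _ _)))
        (ih fun p hp => hsub (Finset.mem_insert_of_mem hp))
  refine ⟨∏ p ∈ S, Y p, hvc S le_rfl, fun p hp => ?_⟩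
  have h1 : ∏ p ∈ S, Y p = Y p * ∏ q ∈ S.erase p, Y q := (Finset.mul_prod_erase S Y hp).symm
  have h2 : bu W (∏ p ∈ S, Y p) = bu (bu W (Y p)) (∏ q ∈ S.erase p, Y q) := by
    rw [bu_bu, bu_eq (Y p), h1, mul_comm (Y p)]
  rw [h2]
  have hne : ((∏ q ∈ S.erase p, q : ℕ) : K) ≠ 0 := by
    rw [Nat.cast_ne_zero]
    exact Finset.prod_ne_zero_iff.2 fun q hq => (hS q (Finset.mem_of_mem_erase hq)).ne_zero
  refine rc_bu (hO p hp) hne ?_ (hvc _ (Finset.erase_subset _ _)) (hY2 p hp)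
  -- the product of the other primes is a unit at `p`
  set q : ℕ := ∏ q ∈ S.erase p, q with hq
  have hcop : Nat.Coprime p q := by
    rw [hq]
    exact Nat.Coprime.prod_right fun r hr => (Nat.coprime_primes (hS p hp)
      (hS r (Finset.mem_of_mem_erase hr))).2 (Finset.ne_of_mem_erase hr).symm
  have h1 : (Nat.gcdA p q : ℤ) * p + (Nat.gcdB p q : ℤ) * q = 1 := by
    have h2 := Nat.gcd_eq_gcd_ab p q
    rw [hcop.gcd_eq_one] at h2
    push_cast at h2
    linarith
  by_contra hcon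
  have hqm : (V p).valuation (q : K) < 1 := by
    rcases (V p).mem_or_inv_mem (q : K) with h3 | h3
    · refine lt_of_le_of_ne (((V p).valuation_le_one_iff _).2 h3) fun h4 => hcon ?_
      rw [← (V p).valuation_le_one_iff, map_inv₀, h4, inv_one]
    · exact absurd h3 hcon
  have h2 : ((Nat.gcdA p q : ℤ) : K) * (p : K) + ((Nat.gcdB p q : ℤ) : K) * (q : K) = 1 := by
    exact_mod_cast congrArg (Int.cast (R := K)) h1
  have h3 : (V p).valuation (1 : K) < 1 := by
    rw [← h2]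
    have h5 : ∀ (a : ℤ) (x : K), (V p).valuation x < 1 →
        (V p).valuation ((a : K) * x) < 1 := by
      intro a x hx
      rw [map_mul]
      calc (V p).valuation (a : K) * (V p).valuation x
          ≤ 1 * (V p).valuation x :=
            mul_le_mul' (((V p).valuation_le_one_iff _).2 (intCast_mem _ _)) le_rfl
        _ < 1 := by rw [one_mul]; exact hx
    exact lt_of_le_of_lt ((V p).valuation.map_add _ _)
      (max_lt (h5 _ _ (hV p hp)) (h5 _ _ hqm))
  rw [map_one] at h3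
  exact lt_irrefl _ h3

end Pool.Agent.N98.SS
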