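import Pool.Agent.R688.PC.Serre2
import Pool.Agent.H379R3.Reg

/-!
The localizations of regular local rings are regular (Serre).
-/

set_option autoImplicit false

open CategoryTheory Abelian IsLocalRing R688.PC

universe u

namespace Pool.Agent.N98.SS

section change

variable {R : Type u} [CommRing R] [IsLocalRing R]

/-- change of rings -/
lemma pd_restrict {x : R} (hx : ∀ y : R, x * y = 0 → y = 0)
    [IsLocalRing (R ⧸ Ideal.span {x})] [IsNoetherianRing (R ⧸ Ideal.span {x})] (n : ℕ) :
    ∀ (L : Type u) [AddCommGroup L] [Module R L] [Module (R ⧸ Ideal.span {x}) L]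
      [IsScalarTower R (R ⧸ Ideal.span {x}) L] [Module.Finite (R ⧸ Ideal.span {x}) L],
      HasProjectiveDimensionLE (ModuleCat.of (R ⧸ Ideal.span {x}) L) n →
      HasProjectiveDimensionLE (ModuleCat.of R L) (n + 1) := by
  -- the free modules
  have hfree : ∀ r : ℕ, HasProjectiveDimensionLE
      (ModuleCat.of R (Fin r → R ⧸ Ideal.span {x})) 1 := by
    intro r
    let f : (Fin r → R) →ₗ[R] (Fin r → R) := LinearMap.lsmul R (Fin r → R) x
    let g : (Fin r → R) →ₗ[R] (Fin r → R ⧸ Ideal.span {x}) :=
      { toFun := fun v i => Ideal.Quotient.mk (Ideal.span {x}) (v i)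
        map_add' := fun a b => rfl
        map_smul' := fun a b => rfl }
    have hf : Function.Injective f := by
      rw [injective_iff_map_eq_zero]
      intro v hv
      funext i
      exact hx _ (congrFun hv i)
    have hg : Function.Surjective g := by
      intro v
      choose w hw using fun i => Ideal.Quotient.mk_surjective (v i)
      exact ⟨w, funext hw⟩
    have hfg : Function.Exact f g := by
      intro v
      constructor
      · intro hv
        have h1 : ∀ i, ∃ a, a * x = v i := by
          intro i
          have h2 : Ideal.Quotient.mk (Ideal.span {x}) (v i) = 0 := congrFun hv i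
          exact Ideal.mem_span_singleton'.1 (Ideal.Quotient.eq_zero_iff_mem.1 h2)
        choose a ha using h1
        refine ⟨a, ?_⟩
        funext i
        change x * a i = v i
        rw [mul_comm, ha]
      · rintro ⟨w, rfl⟩
        funext i
        change Ideal.Quotient.mk (Ideal.span {x}) (x * w i) = 0
        rw [Ideal.Quotient.eq_zero_iff_mem]
        exact Ideal.mul_mem_right _ _ (Ideal.mem_span_singleton_self x)
    have hS := scx_se hfg hf hg
    have hp : ∀ m : ℕ, HasProjectiveDimensionLT (ModuleCat.of R (Fin r → R)) (m + 1) := by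
      intro m
      have h1 : HasProjectiveDimensionLT (ModuleCat.of R (Fin r → R)) 1 := by
        rw [← projective_iff_hasProjectiveDimensionLT_one, ← IsProjective.iff_projective]
        infer_instance
      exact hasProjectiveDimensionLT_of_ge _ 1 (m + 1) (by omega)
    exact hS.hasProjectiveDimensionLT_X₃ 1 (hp 0) (hp 1)
  induction n with
  | zero =>
    intro L _ _ _ _ _ hL
    have h1 : Module.Projective (R ⧸ Ideal.span {x}) L := by
      have h2 : HasProjectiveDimensionLT (ModuleCat.of (R ⧸ Ideal.span {x}) L) 1 := hL
      rw [← projective_iff_hasProjectiveDimensionLT_one] at h2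
      rwa [← IsProjective.iff_projective] at h2
    have h2 : Module.Free (R ⧸ Ideal.span {x}) L := Module.free_of_flat_of_isLocalRing
    let b := Module.finBasis (R ⧸ Ideal.span {x}) L
    let e : (Fin (Module.finrank (R ⧸ Ideal.span {x}) L) → R ⧸ Ideal.span {x}) ≃ₗ[R] L :=
      (b.equivFun.symm).restrictScalars R
    have h3 := hfree (Module.finrank (R ⧸ Ideal.span {x}) L)
    exact ModuleCat.hasProjectiveDimensionLE_of_linearEquiv
      (M := ModuleCat.of R (Fin (Module.finrank (R ⧸ Ideal.span {x}) L) → R ⧸ Ideal.span {x}))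
      (N := ModuleCat.of R L) e 1
  | succ n ih =>
    intro L _ _ _ _ _ hL
    obtain ⟨r, π, hπ⟩ := Module.Finite.exists_fin' (R ⧸ Ideal.span {x}) L
    have hS := scx_se (LinearMap.exact_subtype_ker_map π) (LinearMap.ker π).subtype_injective hπ
    have hP : Projective (ModuleCat.of (R ⧸ Ideal.span {x})
        (Fin r → R ⧸ Ideal.span {x})) := by
      rw [← IsProjective.iff_projective]
      infer_instance
    have h1 := (hS.hasProjectiveDimensionLT_X₃_iff n hP).1 hL
    have h2 := ih (LinearMap.ker π) h1
    have hS' := scx_se (R := R) (f := (LinearMap.ker π).subtype.restrictScalars R)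
      (g := π.restrictScalars R) (LinearMap.exact_subtype_ker_map π)
      (LinearMap.ker π).subtype_injective hπ
    refine hS'.hasProjectiveDimensionLT_X₃ (n + 2) h2 ?_
    exact @hasProjectiveDimensionLT_of_ge _ _ _ _ 2 (n + 3) (by omega) (hfree r)

end change

section reg

lemma exists_order_one {R : Type u} [CommRing R] [IsRegularLocalRing R]
    (hm : maximalIdeal R ≠ ⊥) : ∃ x ∈ maximalIdeal R, x ∉ maximalIdeal R ^ 2 := by
  by_contra hcon
  push Not at hcon
  apply hm
  have h1 : maximalIdeal R ≤ maximalIdeal R • maximalIdeal R := by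
    rw [smul_eq_mul, ← pow_two]
    exact hcon
  exact Submodule.eq_bot_of_le_smul_of_le_jacobson_bot _ _
    ((inferInstance : IsNoetherian R R).noetherian _) h1 (IsLocalRing.maximalIdeal_le_jacobson _)

/-- The projective dimension of modules over regular local rings. -/
theorem pd_regular (d : ℕ) : ∀ (R : Type u) [CommRing R] [IsRegularLocalRing R],
    ringKrullDim R = d → ∀ (M : Type u) [AddCommGroup M] [Module R M] [Module.Finite R M],
      HasProjectiveDimensionLE (ModuleCat.of R M) d := by
  induction d with
  | zero =>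
    intro R _ _ hd M _ _ _
    have hm := Pool.Agent.H379R3.dim_zero_maximalIdeal_eq_bot (B := R) hd
    obtain ⟨n, φ, hφ, hmin⟩ := exists_min_pres (R := R) M
    have hinj : Function.Injective φ := by
      rw [injective_iff_map_eq_zero]
      intro v hv
      funext i
      have h1 := hmin v hv i
      rw [hm, Ideal.mem_bot] at h1
      exact h1
    have hfree : Module.Free R M := Module.Free.of_equiv (LinearEquiv.ofBijective φ ⟨hinj, hφ⟩)
    change HasProjectiveDimensionLT (ModuleCat.of R M) 1
    rw [← projective_iff_hasProjectiveDimensionLT_one, ← IsProjective.iff_projective]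
    infer_instance
  | succ d ih =>
    intro R _ _ hd M _ _ _
    have hdom := Pool.Agent.H379R3.isDomain R
    have hm : maximalIdeal R ≠ ⊥ := by
      intro h0
      have h2 : IsField R := isField_iff_maximalIdeal_eq.2 h0
      have := ringKrullDim_eq_zero_of_isField h2
      rw [hd] at this
      have h3 : d + 1 = 0 := by exact_mod_cast this
      omega
    obtain ⟨x, hx, hx2⟩ := exists_order_one hm
    have hx0 : x ≠ 0 := by
      rintro rfl
      exact hx2 (Ideal.zero_mem _)
    obtain ⟨hreg, hdim⟩ := Pool.Agent.H379R3.regular_quotient x hx hx2 d hd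
    obtain ⟨r, π, hπ⟩ := Module.Finite.exists_fin' R M
    have hS := scx_se (LinearMap.exact_subtype_ker_map π) (LinearMap.ker π).subtype_injective hπ
    have hP : Projective (ModuleCat.of R (Fin r → R)) := by
      rw [← IsProjective.iff_projective]
      infer_instance
    refine (hS.hasProjectiveDimensionLT_X₃_iff d hP).2 ?_
    have hxN : IsSMulRegular (LinearMap.ker π) x := by
      intro a b hab
      apply Subtype.ext
      funext i
      have h1 := congrFun (congrArg Subtype.val hab) i
      exact mul_left_cancel₀ hx0 h1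
    have hfin : Module.Finite (R ⧸ Ideal.span {x}) (QuotSMulTop x (LinearMap.ker π)) :=
      Module.Finite.of_restrictScalars_finite R (R ⧸ Ideal.span {x}) _
    have h1 := ih (R ⧸ Ideal.span {x}) hdim (QuotSMulTop x (LinearMap.ker π))
    have h2 := pd_restrict (R := R) (x := x) (fun y hy => (mul_eq_zero.1 hy).resolve_left hx0) d
      (QuotSMulTop x (LinearMap.ker π)) h1
    have h3 := ModuleCat.projectiveDimension_quotSMulTop_eq_succ_of_isSMulRegular
      (ModuleCat.of R (LinearMap.ker π)) x hxN hx
    have h4 : projectiveDimension (ModuleCat.of R (QuotSMulTop x (LinearMap.ker π))) ≤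
        ((d + 1 : ℕ) : WithBot ℕ∞) := (projectiveDimension_le_iff _ _).2 h2
    have h5 : projectiveDimension (ModuleCat.of R (LinearMap.ker π)) + 1 ≤
        ((d + 1 : ℕ) : WithBot ℕ∞) := h3.symm.le.trans h4
    have h6 : projectiveDimension (ModuleCat.of R (LinearMap.ker π)) ≤ (d : WithBot ℕ∞) := by
      have h7 : projectiveDimension (ModuleCat.of R (LinearMap.ker π)) +
          ((1 : ℕ) : WithBot ℕ∞) ≤ (d : WithBot ℕ∞) + ((1 : ℕ) : WithBot ℕ∞) := by
        exact_mod_cast h5
      rwa [ENat.WithBot.add_le_add_natCast_right_iff] at h7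
    exact (projectiveDimension_le_iff _ _).1 h6

/-- **Serre's theorem**: the localizations of regular local rings are regular. -/
theorem regular_localization {R : Type u} [CommRing R] [IsRegularLocalRing R] (Q : Ideal R)
    [Q.IsPrime] : IsRegularLocalRing (Localization.AtPrime Q) := by
  obtain ⟨d, hd⟩ := Pool.Agent.H379R3.exists_dim_eq (B := R)
  set S := Q.primeCompl with hS
  let R' := Localization.AtPrime Q
  let m := maximalIdeal R'
  -- the residue field
  have hmem : ∀ a ∈ Q, algebraMap R R' a ∈ m := by
    intro a ha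
    exact (IsLocalization.AtPrime.to_map_mem_maximal_iff R' Q a).2 ha
  let f : (R ⧸ Q) →ₗ[R] (R' ⧸ m) :=
    Submodule.liftQ Q ((Ideal.Quotient.mkₐ R m).toLinearMap ∘ₗ Algebra.linearMap R R') (by
      intro a ha
      rw [LinearMap.mem_ker]
      exact Ideal.Quotient.eq_zero_iff_mem.2 (hmem a ha))
  have hf : ∀ a : R, f (Submodule.Quotient.mk a) = Ideal.Quotient.mk m (algebraMap R R' a) :=
    fun a => rfl
  have hloc : IsLocalizedModule S f := by
    have hunit : ∀ s : S, ∃ t : R', t * algebraMap R R' s = 1 := fun s =>
      ⟨_, IsLocalization.mk'_spec_mk R' 1 s.1 s.2 |>.trans (map_one _)⟩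
    constructor
    · intro s
      obtain ⟨t, ht⟩ := hunit s
      rw [Module.End.isUnit_iff]
      constructor
      · rw [injective_iff_map_eq_zero]
        intro y hy
        have h1 : algebraMap R R' s • y = 0 := by
          rw [algebraMap_smul]
          exact hy
        have h2 : y = (t * algebraMap R R' s) • y := by rw [ht, one_smul]
        rw [h2, mul_smul, h1, smul_zero]
      · intro y
        refine ⟨t • y, ?_⟩
        change (s : R) • (t • y) = y
        rw [← algebraMap_smul R' (s : R) (t • y), ← mul_smul, mul_comm, ht, one_smul]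
    · intro y
      obtain ⟨z, rfl⟩ := Ideal.Quotient.mk_surjective y
      obtain ⟨a, s, rfl⟩ := IsLocalization.exists_mk'_eq S z
      refine ⟨(Submodule.Quotient.mk a, s), ?_⟩
      rw [hf]
      change (s : R) • Ideal.Quotient.mk m (IsLocalization.mk' R' a s) = _
      rw [← algebraMap_smul R' (s : R), ← IsLocalization.mk'_spec R' a s, mul_comm]
      rfl
    · intro a b hab
      obtain ⟨a, rfl⟩ := Submodule.Quotient.mk_surjective _ a
      obtain ⟨b, rfl⟩ := Submodule.Quotient.mk_surjective _ b
      refine ⟨1, ?_⟩
      rw [one_smul, one_smul, Submodule.Quotient.eq]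
      rw [hf, hf, Ideal.Quotient.eq, ← map_sub] at hab
      exact (IsLocalization.AtPrime.to_map_mem_maximal_iff R' Q (a - b)).1 hab
  have h1 : HasProjectiveDimensionLE (ModuleCat.of R (R ⧸ Q)) d := pd_regular d R hd (R ⧸ Q)
  have h2 := ModuleCat.localizedModule_hasProjectiveDimensionLE d S (ModuleCat.of R (R ⧸ Q))
  have h3 : HasProjectiveDimensionLE (ModuleCat.of R' (R' ⧸ m)) d := by
    refine ModuleCat.hasProjectiveDimensionLE_of_linearEquiv
      (M := (ModuleCat.of R (R ⧸ Q)).localizedModule S) (N := ModuleCat.of R' (R' ⧸ m)) ?_ d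
    have h5 := ModuleCat.localizedModule_isLocalizedModule (ModuleCat.of R (R ⧸ Q)) S
    let f' : (ModuleCat.of R (R ⧸ Q)) →ₗ[R] (R' ⧸ m) := f
    have h6 : IsLocalizedModule S f' := hloc
    let e := IsLocalizedModule.linearEquiv S
      ((ModuleCat.of R (R ⧸ Q)).localizedModuleMkLinearMap S) f'
    exact LinearEquiv.extendScalarsOfIsLocalization S R' e
  have hdim : ringKrullDim R' ≤ d := by
    rw [← hd, IsLocalization.AtPrime.ringKrullDim_eq_height Q R']
    exact Ideal.height_le_ringKrullDim_of_ne_top (Ideal.IsPrime.ne_top inferInstance)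
  have h4 := @HasProjectiveDimensionLT.subsingleton _ _ _ _ (ModuleCat.of R' (R' ⧸ m)) (d + 1) h3
  exact serre d R' hdim (d + 1) (h4 (d + 1) le_rfl (ModuleCat.of R' (R' ⧸ m)))

end reg

end Pool.Agent.N98.SS
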