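import Pool.Agent.N98.SS.Serre
import Pool.Agent.N98.RW.Lu

/-!
Regular systems of parameters at all primes.
-/

set_option autoImplicit false

open IsLocalRing Pool.Agent.W418.LU2

universe u

namespace Pool.Agent.N98.SS

/-- The localizations of a quotient. -/
lemma regular_loc_quot {R : Type u} [CommRing R] (I : Ideal R) [IsRegularLocalRing (R ⧸ I)]
    (Q : Ideal R) [Q.IsPrime] (hIQ : I ≤ Q) :
    IsRegularLocalRing (Localization.AtPrime Q ⧸ I.map (algebraMap R (Localization.AtPrime Q))) := by
  have hker : RingHom.ker (Ideal.Quotient.mk I) ≤ Q := by rw [Ideal.mk_ker]; exact hIQ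
  have hprime : (Q.map (Ideal.Quotient.mk I)).IsPrime :=
    Ideal.map_isPrime_of_surjective Ideal.Quotient.mk_surjective hker
  have h1 := regular_localization (Q.map (Ideal.Quotient.mk I))
  have h2 : Algebra.algebraMapSubmonoid (R ⧸ I) Q.primeCompl =
      (Q.map (Ideal.Quotient.mk I)).primeCompl := by
    ext z
    constructor
    · rintro ⟨a, ha, rfl⟩ hz
      apply ha
      have h3 : a ∈ (Q.map (Ideal.Quotient.mk I)).comap (Ideal.Quotient.mk I) := hz
      rwa [Ideal.comap_map_of_surjective' _ Ideal.Quotient.mk_surjective, Ideal.mk_ker,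
        sup_eq_left.2 hIQ] at h3
    · intro hz
      obtain ⟨a, rfl⟩ := Ideal.Quotient.mk_surjective z
      exact ⟨a, fun ha => hz (Ideal.mem_map_of_mem _ ha), rfl⟩
  have h3 : IsLocalization (Algebra.algebraMapSubmonoid (R ⧸ I) Q.primeCompl)
      (Localization.AtPrime Q ⧸ I.map (algebraMap R (Localization.AtPrime Q))) := inferInstance
  rw [h2] at h3
  exact IsRegularLocalRing.of_ringEquiv (IsLocalization.algEquiv
    (Q.map (Ideal.Quotient.mk I)).primeCompl (Localization.AtPrime (Q.map (Ideal.Quotient.mk I)))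
    (Localization.AtPrime Q ⧸ I.map (algebraMap R (Localization.AtPrime Q)))).toRingEquiv

/-- Elements of order one have order one at all primes. -/
lemma order_one_localization {R : Type u} [CommRing R] [IsRegularLocalRing R] {x : R}
    (hx : x ∈ maximalIdeal R) (hx2 : x ∉ maximalIdeal R ^ 2) (Q : Ideal R) [Q.IsPrime]
    (hxQ : x ∈ Q) : algebraMap R (Localization.AtPrime Q) x ∉
      maximalIdeal (Localization.AtPrime Q) ^ 2 := by
  intro h
  have hdom := Pool.Agent.H379R3.isDomain R
  have hx0 : x ≠ 0 := by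
    rintro rfl
    exact hx2 (Ideal.zero_mem _)
  obtain ⟨d, hd⟩ := Pool.Agent.H379R3.exists_dim_eq (B := R)
  have hm : maximalIdeal R ≠ ⊥ := by
    intro h0
    rw [h0, Ideal.mem_bot] at hx
    exact hx0 hx
  obtain ⟨d, rfl⟩ : ∃ d', d = d' + 1 := by
    rcases d with _ | d
    · exact absurd (Pool.Agent.H379R3.dim_zero_maximalIdeal_eq_bot (B := R) hd) hm
    · exact ⟨d, rfl⟩
  obtain ⟨hreg, -⟩ := Pool.Agent.H379R3.regular_quotient x hx hx2 d hd
  have hIQ : Ideal.span {x} ≤ Q := (Ideal.span_singleton_le_iff_mem Q).2 hxQ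
  have h1 := regular_loc_quot (Ideal.span {x}) Q hIQ
  have h2 := regular_localization Q
  have h3 := Pool.Agent.H379R3.eq_bot_of_le_sq
    ((Ideal.span {x}).map (algebraMap R (Localization.AtPrime Q))) (by
      rw [Ideal.map_span, Set.image_singleton, Ideal.span_singleton_le_iff_mem]
      exact h)
  rw [Ideal.map_span, Set.image_singleton, Ideal.span_singleton_eq_bot] at h3
  have h4 := IsLocalization.injective (Localization.AtPrime Q) Q.primeCompl_le_nonZeroDivisors
  exact hx0 (h4 (by rw [h3, map_zero]))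

/-- Regular parameters at all primes. -/
theorem snc_of_ind {R : Type u} [CommRing R] [IsRegularLocalRing R] {m : ℕ} {x : Fin m → R}
    (hx : Ind x) (Q : Ideal R) [Q.IsPrime] : IsRegularLocalRing (Localization.AtPrime Q) ∧
    ∀ c : Fin m → Localization.AtPrime Q, (∀ i, x i ∉ Q → c i = 0) →
      ∑ i, c i * algebraMap R (Localization.AtPrime Q) (x i) ∈
        maximalIdeal (Localization.AtPrime Q) ^ 2 →
      ∀ i, c i ∈ maximalIdeal (Localization.AtPrime Q) := by
  classical
  refine ⟨regular_localization Q, fun c hc hs i => ?_⟩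
  by_cases hiQ : x i ∈ Q
  swap
  · rw [hc i hiQ]
    exact Ideal.zero_mem _
  by_contra hci
  let κ : Type := {j : Fin m // j ≠ i ∧ x j ∈ Q}
  let h : κ → R := fun j => x j.1
  have hind : Ind (Sum.elim (fun _ : Unit => x i) h) := by
    have h1 := Ind.comp hx (Sum.elim (fun _ : Unit => i) (fun j : κ => j.1)) (by
      rintro (a | a) (b | b) hab
      · rfl
      · exact absurd hab.symm b.2.1
      · exact absurd hab a.2.1
      · exact congrArg Sum.inr (Subtype.ext hab))
    convert h1 using 1
    funext k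
    rcases k with k | k <;> rfl
  have hindh : Ind h := by
    have h1 := Ind.comp hx (fun j : κ => j.1) Subtype.val_injective
    exact h1
  set I : Ideal R := Ideal.span (Set.range h) with hI
  have hreg : IsRegularLocalRing (R ⧸ I) := hindh.regular
  have hθ := hind.quot (Ideal.Quotient.mk I) Ideal.Quotient.mk_surjective (Ideal.mk_ker)
  have hxm : Ideal.Quotient.mk I (x i) ∈ maximalIdeal (R ⧸ I) := hθ.1 ()
  have hxm2 : Ideal.Quotient.mk I (x i) ∉ maximalIdeal (R ⧸ I) ^ 2 := by
    intro h1
    have h2 := hθ.2 (fun _ => 1) (by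
      rw [Fintype.sum_unique, one_mul]
      exact h1) ()
    exact (Ideal.ne_top_iff_one _).1 (maximalIdeal.isMaximal (R ⧸ I)).ne_top h2
  have hIQ : I ≤ Q := by
    rw [hI, Ideal.span_le]
    rintro _ ⟨j, rfl⟩
    exact j.2.2
  have hker : RingHom.ker (Ideal.Quotient.mk I) ≤ Q := by rw [Ideal.mk_ker]; exact hIQ
  have hprime : (Q.map (Ideal.Quotient.mk I)).IsPrime :=
    Ideal.map_isPrime_of_surjective Ideal.Quotient.mk_surjective hker
  have hcomap : Q = (Q.map (Ideal.Quotient.mk I)).comap (Ideal.Quotient.mk I) := by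
    rw [Ideal.comap_map_of_surjective' _ Ideal.Quotient.mk_surjective, Ideal.mk_ker,
      sup_eq_left.2 hIQ]
  let Θ := Localization.localRingHom Q (Q.map (Ideal.Quotient.mk I)) (Ideal.Quotient.mk I) hcomap
  have hΘ : ∀ a : R, Θ (algebraMap R (Localization.AtPrime Q) a) =
      algebraMap (R ⧸ I) (Localization.AtPrime (Q.map (Ideal.Quotient.mk I)))
        (Ideal.Quotient.mk I a) := fun a => Localization.localRingHom_to_map _ _ _ _ a
  have hΘm : (maximalIdeal (Localization.AtPrime Q)).map Θ ≤
      maximalIdeal (Localization.AtPrime (Q.map (Ideal.Quotient.mk I))) :=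
    ((IsLocalRing.local_hom_TFAE Θ).out 0 2).1 (Localization.isLocalHom_localRingHom _ _ _ _)
  have h1 : Θ (∑ j, c j * algebraMap R (Localization.AtPrime Q) (x j)) ∈
      maximalIdeal (Localization.AtPrime (Q.map (Ideal.Quotient.mk I))) ^ 2 := by
    have h2 := Ideal.mem_map_of_mem Θ hs
    rw [Ideal.map_pow] at h2
    exact Ideal.pow_right_mono hΘm 2 h2
  have h2 : Θ (∑ j, c j * algebraMap R (Localization.AtPrime Q) (x j)) =
      Θ (c i) * algebraMap (R ⧸ I) (Localization.AtPrime (Q.map (Ideal.Quotient.mk I)))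
        (Ideal.Quotient.mk I (x i)) := by
    rw [map_sum, Finset.sum_eq_single i]
    · rw [map_mul, hΘ]
    · intro j _ hj
      by_cases hjQ : x j ∈ Q
      · rw [map_mul, hΘ]
        have h3 : Ideal.Quotient.mk I (x j) = 0 :=
          Ideal.Quotient.eq_zero_iff_mem.2 (Ideal.subset_span ⟨⟨j, hj, hjQ⟩, rfl⟩)
        rw [h3, map_zero, mul_zero]
      · rw [hc j hjQ, zero_mul, map_zero]
    · intro h3
      exact absurd (Finset.mem_univ i) h3
  rw [h2] at h1
  have h3 : IsUnit (Θ (c i)) := by
    have h4 : IsUnit (c i) := by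
      by_contra h5
      exact hci ((mem_maximalIdeal _).2 h5)
    exact h4.map Θ
  have h4 := (Ideal.unit_mul_mem_iff_mem _ h3).1 h1
  exact order_one_localization hxm hxm2 (Q.map (Ideal.Quotient.mk I))
    (Ideal.mem_map_of_mem _ hiQ) h4

/-- Regular pairs. -/
theorem sncPair_of_regular {P : Type u} [CommRing P] {J : Ideal P} (hP : IsRegularLocalRing P)
    {n : ℕ} {x : Fin n → P} {s : Finset (Fin n)}
    (hx : Ideal.span (Set.range x) = maximalIdeal P) (hn : ringKrullDim P = n)
    (hJ : J.radical = Ideal.span {∏ i ∈ s, x i}) : Pool.Agent.N98.RW.SncPair P J := by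
  classical
  have hind : Ind x := ind_of_span hx (by rw [hn, Fintype.card_fin])
  let e : Fin s.card ≃ s := s.equivFin.symm
  have h1 : Ind (fun i : Fin s.card => x (e i)) :=
    Ind.comp hind (fun i : Fin s.card => ((e i : s) : Fin n))
      (Subtype.val_injective.comp e.injective)
  refine ⟨s.card, fun i => x (e i), fun Q _ => snc_of_ind h1 Q, ?_⟩
  rw [hJ]
  congr 2
  rw [Equiv.prod_comp e (fun i : s => x i), Finset.prod_coe_sort s x]

end Pool.Agent.N98.SS
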