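import Pool.Agent.H306.DT6.Sort
import Pool.Agent.H176.DT.Lat
import Pool.Agent.H176.DT.H10

/-!
The telescoping simplex in ordered groups, and lattices with a convex sublattice.
-/

set_option autoImplicit false
set_option linter.unusedVariables false

universe u

namespace Pool.Agent.N98.SS

open Pool.Agent.H306.DT6 (tel tel')

/-- The telescoping simplex. -/
theorem sort_gen {A : Type u} [AddCommGroup A] [LinearOrder A] [IsOrderedAddMonoid A] {t : ℕ}
    (z : Fin t → A) (w : A) (hw : 0 < w) (hz : ∀ j, 0 < z j ∧ z j < w)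
    (hinj : Function.Injective z) :
    ∃ (n : Fin (t + 1) → ℤ) (h : Fin (t + 1) → Fin t → ℤ) (S : Fin (t + 1) → Fin t → ℕ),
      (∀ k, 0 < n k • w + ∑ j, h k j • z j) ∧ ∑ k, n k = 1 ∧ (∀ j, ∑ k, h k j = 0) ∧
      (∀ k j, S k j ≤ 1) ∧ (∀ j, ∑ k, (S k j : ℤ) * n k = 0) ∧
      ∀ j j', ∑ k, (S k j : ℤ) * h k j' = if j = j' then 1 else 0 := by
  set σ : Equiv.Perm (Fin t) := Tuple.sort z with hσ
  have hmono : StrictMono (z ∘ σ) :=
    (Tuple.monotone_sort z).strictMono_of_injective (hinj.comp σ.injective)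
  set wn : ℕ → ℤ := fun k => if k = t + 1 then 1 else 0 with hwn
  set wh : Fin t → ℕ → ℤ := fun j k => if (σ.symm j : ℕ) + 1 = k then 1 else 0 with hwh
  have wn0 : wn 0 = 0 := by
    rw [hwn]
    simp
  have wh0 : ∀ j, wh j 0 = 0 := by
    intro j
    rw [hwh]
    simp
  have whl : ∀ j, wh j (t + 1) = 0 := by
    intro j
    simp only [hwh]
    rw [if_neg]
    have := (σ.symm j).2
    omega
  -- the values
  set val : ℕ → A := fun m => wn m • w + ∑ j, wh j m • z j with hval
  have val0 : val 0 = 0 := by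
    simp only [hval]
    rw [wn0]
    simp [wh0]
  have vall : val (t + 1) = w := by
    simp only [hval]
    simp [whl, hwn]
  have vals : ∀ i : Fin t, val ((i : ℕ) + 1) = z (σ i) := by
    intro i
    simp only [hval]
    have h1 : wn ((i : ℕ) + 1) = 0 := by
      simp only [hwn]
      rw [if_neg]
      have := i.2
      omega
    rw [h1, zero_smul, zero_add, Finset.sum_eq_single (σ i)]
    · simp only [hwh]
      rw [Equiv.symm_apply_apply, if_pos rfl, one_smul]
    · intro b _ hb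
      simp only [hwh]
      rw [if_neg]
      · rw [zero_smul]
      · intro h
        apply hb
        have h2 : σ.symm b = i := Fin.ext (by omega)
        rw [← h2, Equiv.apply_symm_apply]
    · intro h
      exact absurd (Finset.mem_univ _) h
  refine ⟨fun k => wn ((k : ℕ) + 1) - wn (k : ℕ), fun k j => wh j ((k : ℕ) + 1) - wh j (k : ℕ),
    fun k j => if (k : ℕ) ≤ (σ.symm j : ℕ) then 1 else 0, ?_, ?_, ?_, ?_, ?_, ?_⟩
  · intro k
    have e : (wn ((k : ℕ) + 1) - wn (k : ℕ)) • w +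
        ∑ j, (wh j ((k : ℕ) + 1) - wh j (k : ℕ)) • z j =
        val ((k : ℕ) + 1) - val (k : ℕ) := by
      simp only [hval]
      rw [sub_smul, Finset.sum_congr rfl (fun j _ => sub_smul (wh j ((k : ℕ) + 1))
        (wh j (k : ℕ)) (z j)), Finset.sum_sub_distrib]
      abel
    rw [e, sub_pos]
    have hk := k.2
    rcases Nat.eq_zero_or_pos (k : ℕ) with h0 | h0
    · rw [h0, val0, zero_add]
      rcases Nat.eq_zero_or_pos t with ht | ht
      · have := vall
        rw [ht, zero_add] at this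
        rw [this]
        exact hw
      · have := vals ⟨0, ht⟩
        simp only [zero_add] at this
        rw [this]
        exact (hz _).1
    · have hk1 : (k : ℕ) - 1 < t := by omega
      have e1 : (k : ℕ) = ((⟨(k : ℕ) - 1, hk1⟩ : Fin t) : ℕ) + 1 := by
        simp only
        omega
      have e2 : val (k : ℕ) = z (σ ⟨(k : ℕ) - 1, hk1⟩) := by
        rw [← vals ⟨(k : ℕ) - 1, hk1⟩, ← e1]
      rw [e2]
      rcases Nat.lt_or_ge (k : ℕ) t with hkt | hkt
      · rw [vals ⟨(k : ℕ), hkt⟩]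
        refine hmono ?_
        rw [Fin.mk_lt_mk]
        omega
      · have e3 : (k : ℕ) + 1 = t + 1 := by omega
        rw [e3, vall]
        exact (hz _).2
  · rw [tel' wn, wn0, sub_zero]
    simp [hwn]
  · intro j
    rw [tel' (wh j), wh0, whl, sub_zero]
  · intro k j
    simp only
    split_ifs <;> omega
  · intro j
    have hj := (σ.symm j).2
    rw [tel wn (p := (σ.symm j : ℕ)) (by omega), wn0, sub_zero]
    simp only [hwn]
    rw [if_neg (by omega)]
  · intro j j'
    have hj := (σ.symm j).2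
    rw [tel (wh j') (p := (σ.symm j : ℕ)) (by omega), wh0, sub_zero]
    simp only [hwh]
    by_cases h : j = j'
    · rw [if_pos (by rw [h]), if_pos h]
    · rw [if_neg, if_neg h]
      intro h1
      apply h
      have h2 : σ.symm j' = σ.symm j := Fin.ext (by omega)
      exact (σ.symm.injective h2).symm

/-- A lattice with a saturated sublattice. -/
theorem decomp {s : ℕ} (Λ0 : Submodule ℤ (Fin s → ℤ))
    (htf : ∀ (k : ℤ) (δ : Fin s → ℤ), k ≠ 0 → k • δ ∈ Λ0 → δ ∈ Λ0) (γ : Fin s → ℤ)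
    (hγ : γ ∉ Λ0) :
    ∃ (d t : ℕ) (γ1 : Fin s → ℤ) (g : Fin t → Fin s → ℤ), 0 < d ∧ γ - (d : ℤ) • γ1 ∈ Λ0 ∧
      (∀ l : Fin s → ℤ, ∃ (α1 : ℤ) (α : Fin t → ℤ),
        l - (α1 • γ1 + ∑ j, α j • g j) ∈ Λ0) ∧
      ∀ (α1 : ℤ) (α : Fin t → ℤ), α1 • γ1 + ∑ j, α j • g j ∈ Λ0 → α1 = 0 ∧ α = 0 := by
  classical
  have htf' : Module.IsTorsionFree ℤ ((Fin s → ℤ) ⧸ Λ0) := by
    refine Module.IsTorsionFree.of_smul_eq_zero fun k q hkq => ?_
    obtain ⟨δ, rfl⟩ := Submodule.Quotient.mk_surjective _ q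
    by_cases hk : k = 0
    · exact Or.inl hk
    · right
      rw [← Submodule.Quotient.mk_smul, Submodule.Quotient.mk_eq_zero] at hkq
      rw [Submodule.Quotient.mk_eq_zero]
      exact htf k δ hk hkq
  have hfree : Module.Free ℤ ((Fin s → ℤ) ⧸ Λ0) := inferInstance
  let b := Module.finBasis ℤ ((Fin s → ℤ) ⧸ Λ0)
  obtain ⟨σ, hσ⟩ := Module.projective_lifting_property Λ0.mkQ
    (LinearMap.id : ((Fin s → ℤ) ⧸ Λ0) →ₗ[ℤ] ((Fin s → ℤ) ⧸ Λ0)) (Submodule.mkQ_surjective _)
  have hσ' : ∀ q, Submodule.Quotient.mk (σ q) = q := fun q => LinearMap.congr_fun hσ q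
  set m := Module.finrank ℤ ((Fin s → ℤ) ⧸ Λ0) with hm
  let β : Fin m → ℤ := fun i => b.repr (Submodule.Quotient.mk γ) i
  have hβ0 : β ≠ 0 := by
    intro h0
    apply hγ
    rw [← Submodule.Quotient.mk_eq_zero Λ0]
    apply b.repr.injective
    ext i
    rw [map_zero]
    exact congrFun h0 i
  obtain ⟨d, β0, c, hd, hβd, hc⟩ := Pool.Agent.H176.DT.exists_content β hβ0
  obtain ⟨t, htm, g', a1, a, hg1, hg2⟩ := Pool.Agent.H176.DT.lat6 β0 ⟨c, hc⟩
  let Q : (Fin m → ℤ) →ₗ[ℤ] ((Fin s → ℤ) ⧸ Λ0) := b.equivFun.symm.toLinearMap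
  have hQ : Function.Injective Q := b.equivFun.symm.injective
  have hQs : ∀ q, ∃ κ, Q κ = q := b.equivFun.symm.surjective
  have hQγ : Submodule.Quotient.mk γ = Q β := by
    apply b.equivFun.injective
    change b.equivFun _ = b.equivFun (b.equivFun.symm β)
    rw [LinearEquiv.apply_symm_apply]
    rfl
  have hβd' : β = (d : ℤ) • β0 := by
    funext i
    rw [Pi.smul_apply, smul_eq_mul]
    exact hβd i
  have hexp : ∀ κ : Fin m → ℤ, κ = (∑ i, κ i * a1 i) • β0 + ∑ j, (∑ i, κ i * a i j) • g' j := by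
    intro κ
    have h1 : κ = ∑ i, κ i • (Pi.single i 1 : Fin m → ℤ) := by
      funext l
      rw [Finset.sum_apply, Finset.sum_eq_single l]
      · simp
      · intro i _ hi
        simp [hi]
      · intro h
        exact absurd (Finset.mem_univ _) h
    conv_lhs => rw [h1]
    rw [Finset.sum_smul]
    simp_rw [Finset.sum_smul]
    rw [Finset.sum_comm, ← Finset.sum_add_distrib]
    refine Finset.sum_congr rfl fun i _ => ?_
    rw [hg1 i, smul_add, Finset.smul_sum, smul_smul]
    congr 1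
    exact Finset.sum_congr rfl fun j _ => smul_smul _ _ _
  refine ⟨d, t, σ (Q β0), fun j => σ (Q (g' j)), hd, ?_, ?_, ?_⟩
  · rw [← Submodule.Quotient.mk_eq_zero, Submodule.Quotient.mk_sub, Submodule.Quotient.mk_smul,
      hσ', hQγ, hβd', map_smul, sub_self]
  · intro l
    obtain ⟨κ, hκ⟩ := hQs (Submodule.Quotient.mk l)
    refine ⟨∑ i, κ i * a1 i, fun j => ∑ i, κ i * a i j, ?_⟩
    rw [← Submodule.Quotient.mk_eq_zero, Submodule.Quotient.mk_sub]
    have h1 : (∑ i, κ i * a1 i) • σ (Q β0) + ∑ j, (∑ i, κ i * a i j) • σ (Q (g' j)) =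
        σ (Q κ) := by
      conv_rhs => rw [hexp κ]
      rw [map_add, map_add, map_smul, map_smul, map_sum, map_sum]
      congr 1
      refine Finset.sum_congr rfl fun j _ => ?_
      rw [map_smul, map_smul]
    rw [h1, hσ', hκ, sub_self]
  · intro α1 α h
    rw [← Submodule.Quotient.mk_eq_zero] at h
    have h1 : α1 • σ (Q β0) + ∑ j, α j • σ (Q (g' j)) = σ (Q (α1 • β0 + ∑ j, α j • g' j)) := by
      rw [map_add, map_add, map_smul, map_smul, map_sum, map_sum]
      congr 1
      refine Finset.sum_congr rfl fun j _ => ?_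
      rw [map_smul, map_smul]
    rw [h1, hσ'] at h
    exact hg2 α1 α (hQ (by rw [h, map_zero]))

end Pool.Agent.N98.SS
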