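import Pool.Agent.N98.RW.Ver

/-!
The Veronese embedding.
-/

set_option autoImplicit false
set_option linter.unusedVariables false
set_option linter.unusedSectionVars false

universe u

namespace Pool.Agent.N98.SS

open IsLocalRing Pool.Agent.W418.LU2 Pool.Agent.N98.RV Pool.Agent.N98 Pool.Agent.N98.RW
  MvPolynomial

variable {E K : Type u} [Field E] [Field K] [Algebra E K]

/-- The Veronese embedding. -/
theorem exists_ver {N r δ e : ℕ} (he : 1 ≤ e) (x : Fin N → K)
    (htop : IntermediateField.adjoin E (Set.range x) = ⊤) (C0 : ℕ)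
    (hδ : ∀ t : ℕ, r.factorial * Module.finrank E (img E x t) ≤ δ * (t + C0) ^ r) :
    ∃ (N' : ℕ) (x' : Fin N' → K), (∀ z, PProd (E := E) x e z → LProd (E := E) x' z) ∧
      IntermediateField.adjoin E (Set.range x') = ⊤ ∧
      (∀ t : ℕ, r.factorial * Module.finrank E (img E x' t) ≤ (δ * e ^ r) * (t + C0) ^ r) ∧
      ∀ A : Subring K, (∀ j, ∃ b ∈ A, b ≠ 0 ∧ PProd (E := E) x e b ∧ b * x j ∈ A) →
        ∀ j, ∃ b ∈ A, b ≠ 0 ∧ LProd (E := E) x' b ∧ b * x' j ∈ A := by
  classical
  let N' := Fintype.card (Ex N e)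
  let σ : Fin N' ≃ Ex N e := (Fintype.equivFin (Ex N e)).symm
  let x' : Fin N' → K := fun j => vm x e (σ j)
  have hL : ∀ z, PProd (E := E) x e z → LProd (E := E) x' z := by
    rintro z ⟨q, P, n, hP, rfl⟩
    choose b hb using fun i => aeval_vm x (hP i)
    refine ⟨q, fun _ => 0, fun i l => b i (σ l), n, ?_⟩
    refine Finset.prod_congr rfl fun i _ => ?_
    rw [map_zero, zero_add, hb i]
    congr 1
    exact (Equiv.sum_comp σ (fun m => algebraMap E K (b i m) * vm x e m)).symm
  refine ⟨N', x', hL, ?_, ?_, ?_⟩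
  · rw [eq_top_iff, ← htop, IntermediateField.adjoin_le_iff]
    rintro _ ⟨i, rfl⟩
    refine IntermediateField.subset_adjoin _ _ ?_
    let m : Ex N e := ⟨fun j => if j = i then ⟨1, by omega⟩ else 0, by
      have h1 : ∀ j, (((if j = i then (⟨1, by omega⟩ : Fin (e + 1)) else 0) : Fin (e + 1)) : ℕ) =
          if j = i then 1 else 0 := by
        intro j
        split_ifs <;> rfl
      rw [Finset.sum_congr rfl fun j _ => h1 j, Finset.sum_ite_eq' Finset.univ i]
      simpa using he⟩
    refine ⟨σ.symm m, ?_⟩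
    change vm x e (σ (σ.symm m)) = x i
    rw [Equiv.apply_symm_apply]
    change ∏ j, x j ^ (((if j = i then (⟨1, by omega⟩ : Fin (e + 1)) else 0) : Fin (e + 1)) : ℕ) =
      x i
    rw [Finset.prod_eq_single i]
    · rw [if_pos rfl, pow_one]
    · intro j _ hj
      rw [if_neg hj]
      exact pow_zero _
    · intro h; exact absurd (Finset.mem_univ _) h
  · intro t
    have hfin : FiniteDimensional E (img E x (e * t)) := by
      have h1 : FiniteDimensional E (restrictTotalDegree (Fin N) E (e * t)) := by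
        infer_instance
      unfold img
      infer_instance
    have h1 : Module.finrank E (img E x' t) ≤ Module.finrank E (img E x (e * t)) :=
      Submodule.finrank_mono (img_vm_le x σ t)
    calc r.factorial * Module.finrank E (img E x' t) ≤
        r.factorial * Module.finrank E (img E x (e * t)) := Nat.mul_le_mul_left _ h1
      _ ≤ δ * (e * t + C0) ^ r := hδ _
      _ ≤ δ * (e * (t + C0)) ^ r := by
        refine Nat.mul_le_mul_left _ (Nat.pow_le_pow_left ?_ r)
        rw [mul_add]
        have : C0 ≤ e * C0 := Nat.le_mul_of_pos_left _ he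
        omega
      _ = δ * e ^ r * (t + C0) ^ r := by rw [mul_pow, mul_assoc]
  · intro A hx j
    choose b hb hb0 hbp hbx using hx
    refine ⟨∏ i, b i ^ ((σ j).1 i : ℕ), A.prod_mem fun i _ => A.pow_mem (hb i) _,
      Finset.prod_ne_zero_iff.2 fun i _ => pow_ne_zero _ (hb0 i), ?_, ?_⟩
    · exact LProd.prod _ _ fun i _ => (hL _ (hbp i)).pow _
    · change (∏ i, b i ^ ((σ j).1 i : ℕ)) * ∏ i, x i ^ ((σ j).1 i : ℕ) ∈ A
      rw [← Finset.prod_mul_distrib]
      refine A.prod_mem fun i _ => ?_
      rw [← mul_pow]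
      exact A.pow_mem (hbx i) _

end Pool.Agent.N98.SS
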