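import Pool.Agent.N98.SS.Fin2
import Pool.Agent.R187.CT.Mul

/-!
Vertical stages and projective models which are regular at the centre of a valuation, from one stage.
(Variants of theorems of the library of the starting files.)
-/

set_option autoImplicit false
set_option linter.unusedVariables false
set_option linter.unusedSectionVars false

universe u

open scoped Pointwise

namespace Pool.Agent.N98.SS

open IsLocalRing Pool.Agent.W418.LU2 Pool.Agent.TH188.QS Pool.Agent.H176.DT Pool.Agent.R187.CT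

/-- Stages in which all parameters divide a power of `p`. -/
theorem vertical_stage_of {K : Type u} [Field K] (V : ValuationSubring K) (A : Subring K)
    {T0 : Set K} {n0 : ℕ} {x0 : Fin n0 → K} (hst0 : St V A T0 x0) (p : K)
    (hmon0 : PMon (PP V A T0) x0 p) (hpV : p ∈ V) (htop : ∀ a : K, ∃ n : ℕ, p ^ n * a ∈ V) :
    ∃ (T : Set K) (s : ℕ) (x : Fin s → K) (u : K) (η : Fin s → ℤ), St V A T x ∧
      (∀ i, (x i)⁻¹ ∉ V) ∧ u ∈ PP V A T ∧ u⁻¹ ∈ PP V A T ∧ u ≠ 0 ∧ p = u * mo x η ∧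
      ∀ i, 0 < η i := by
  classical
  obtain ⟨T, s, x, hSt, hxV, hind, hmon⟩ := ind_of_stage p_ref p_expo V A hst0 {p}
    (Set.finite_singleton p) (by rintro g rfl; exact hmon0)
  have hx0 := hSt.reg.ne
  obtain ⟨k, hk⟩ : ∃ k : ℕ, ∀ i, p ^ k * (x i)⁻¹ ∈ V := by
    choose n hn using fun i => htop (x i)⁻¹
    refine ⟨∑ i, n i, fun i => ?_⟩
    have h1 : ∑ j, n j = (∑ j ∈ Finset.univ.erase i, n j) + n i :=
      (Finset.sum_erase_add _ _ (Finset.mem_univ i)).symm
    rw [h1, pow_add, mul_assoc]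
    exact V.mul_mem _ _ (pow_mem hpV _) (hn i)
  have hpm : PMon (PP V A T) x p := (hmon p rfl).1
  obtain ⟨T', x', hTT', hSt', hRef, hδ, hP, hG⟩ := p_ref V A T x hSt
    (Set.range fun i => p ^ k * (x i)⁻¹) (Set.finite_range _) (by
      rintro _ ⟨i, rfl⟩
      exact PMon.mul hx0 (Pool.Agent.TH188.QS.PMon.pow hx0 hpm k)
        (Pool.Agent.TH188.QS.PMon.self i).inv)
  choose δ hδ using hδ
  have hRef' : ∀ i, ∃ a : Fin s → ℤ, 0 ≤ a ∧ x i = mo x' a := by
    intro i
    obtain ⟨a, ha, h⟩ := hRef (Pi.single i 1) (Pi.single_nonneg.2 zero_le_one)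
    exact ⟨a, ha, by rw [← h, mo_single]⟩
  choose a ha0 ha using hRef'
  have hx'0 := hSt'.reg.ne
  let MA : Matrix (Fin s) (Fin s) ℤ := Matrix.of a
  let MD : Matrix (Fin s) (Fin s) ℤ := Matrix.of δ
  have h1 : MA * MD = 1 := by
    ext i l
    have h2 : ∑ j, a i j • δ j = Pi.single i 1 := by
      refine mo_inj hx0 hind ?_
      rw [← Pool.Agent.R187.CT.mo_comp hx0 hδ, ← ha i, mo_single]
    have h3 := congrFun h2 l
    rw [Finset.sum_apply] at h3
    simp only [Pi.smul_apply, smul_eq_mul] at h3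
    change ∑ j, a i j * δ j l = _
    rw [h3, Matrix.one_apply, Pi.single_apply]
    simp only [eq_comm]
  have h2 : MD * MA = 1 := mul_eq_one_comm.1 h1
  have hind' : ∀ e : Fin s → ℤ, V.valuation (mo x' e) = 1 → e = 0 := by
    intro e he
    rw [Pool.Agent.R187.CT.mo_comp hx0 hδ] at he
    have h3 := hind _ he
    have h4 : Matrix.vecMul e MD = 0 := by
      funext l
      have h5 := congrFun h3 l
      rw [Finset.sum_apply] at h5
      simp only [Pi.smul_apply, smul_eq_mul] at h5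
      exact h5
    have h5 : Matrix.vecMul (Matrix.vecMul e MD) MA = e := by
      rw [Matrix.vecMul_vecMul, h2, Matrix.vecMul_one]
    rw [← h5, h4, Matrix.zero_vecMul]
  have hxV' : ∀ i, (x' i)⁻¹ ∉ V := by
    intro i hi
    have h3 : V.valuation (x' i) = 1 :=
      (val_one_iff _ _).2 ⟨hx'0 i, hSt'.reg.PA (hSt'.reg.mem i), hi⟩
    have h4 := hind' (Pi.single i 1) (by rw [mo_single]; exact h3)
    have h5 := congrFun h4 i
    rw [Pi.single_eq_same] at h5
    exact one_ne_zero h5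
  obtain ⟨u, u0, u1, u2, η, hη⟩ := hP p hpm
  refine ⟨T', s, x', u, η, hSt', hxV', u1, u2, u0, hη, fun j => ?_⟩
  have h3 : ∀ i, a i j ≤ k * η j := by
    intro i
    have h4 := hG _ ⟨i, rfl⟩ (hk i)
    have h5 : mo x' ((k : ℤ) • η + -a i) = (u⁻¹) ^ k * (p ^ k * (x i)⁻¹) := by
      rw [mo_add hx'0, mo_neg, Pool.Agent.Y547.DT6.mo_zs, ← ha i, zpow_natCast, hη, mul_pow,
        ← mul_assoc, ← mul_assoc, ← mul_pow, inv_mul_cancel₀ u0, one_pow, one_mul]
    have h6 : mo x' ((k : ℤ) • η + -a i) ∈ PP V A T' := by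
      rw [h5]
      exact Subring.mul_mem _ (Subring.pow_mem _ u2 _) h4
    have h7 := p_expo hSt'.reg _ h6 j (hxV' j)
    simp only [Pi.add_apply, Pi.smul_apply, Pi.neg_apply, smul_eq_mul] at h7
    omega
  obtain ⟨i, hi⟩ : ∃ i, a i j ≠ 0 := by
    by_contra hcon
    push Not at hcon
    have h4 := congrFun (congrFun h2 j) j
    rw [Matrix.mul_apply, Matrix.one_apply_eq] at h4
    rw [Finset.sum_eq_zero] at h4
    · exact zero_ne_one h4
    · intro i _
      change δ j i * a i j = 0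
      rw [hcon i, mul_zero]
  have h4 : 0 < a i j := lt_of_le_of_ne (ha0 i j) hi.symm
  have h5 := h3 i
  by_contra hcon
  push Not at hcon
  have h6 : (k : ℤ) * η j ≤ 0 := mul_nonpos_of_nonneg_of_nonpos (Int.natCast_nonneg k) hcon
  omega

/-- Projective models which are regular at the centre of a valuation. -/
theorem model_at_of {K : Type u} [Field K] (V : ValuationSubring K) (O : Subring K)
    (hO : ∀ a ∈ O, a ∈ V) {W : Set K} (hWf : W.Finite) {w : K} (hw : w ∈ W) (hw0 : w ≠ 0)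
    (hwV : ∀ v ∈ W, v / w ∈ V) {p : K} {T0 : Set K} {n0 : ℕ}
    {x0 : Fin n0 → K} (hst0 : St V (ch O W w) T0 x0) (hmon0 : PMon (PP V (ch O W w) T0) x0 p)
    (hpO : p ∈ O) (htop : ∀ a : K, ∃ n : ℕ, p ^ n * a ∈ V) :
    ∃ (Y : Set K) (d n : ℕ), Y.Finite ∧
      Y ⊆ ((Submodule.span O W) ^ d : Submodule O K) ∧
      (∀ z ∈ (Submodule.span O W) ^ d, p ^ n * z ∈ Submodule.span O Y) ∧
      ∃ w' ∈ bu W Y, w' ≠ 0 ∧ (∀ v ∈ bu W Y, v / w' ∈ V) ∧
        NC (lo V.toSubring (ch O (bu W Y) w')) p := by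
  obtain ⟨T, s, x, u, η, hSt, hxV, hu1, hu2, hu0, hp, hη⟩ :=
    vertical_stage_of V (ch O W w) hst0 p hmon0 (hO p hpO) htop
  obtain ⟨Y, d, n, h1, h2, h3, w', h4, h5, h6, h7⟩ :=
    model_stage V O hO hWf hw hw0 hwV hpO hSt hu1 hu2 hu0 hp hη
  refine ⟨Y, d, n, h1, h2, h3, w', h4, h5, h6, ?_⟩
  rw [h7]
  exact nc_of_stage V hSt hxV hu1 hu2 hu0 hp hη

end Pool.Agent.N98.SS
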